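import Pool.Agent.Lib.ZB.Defs

/-!
# ZB / A (80 lines): the shift average

PROOF.  For `h < H`: `∑_{n ∈ (N, M]} f(n + h) = ∑_{n ∈ (N+h, M+h]} f n`, which differs from `∑_{n ∈ (N, M]} f n` by at most `2 h` terms of norm
`≤ 1` (if `M ≤ N + h` both sums have together at most `2 (M - N) ≤ 2 h` terms; otherwise the terms of `(N, N+h]` and of `(M, M+h]`;
uniformly: induction on `h`: passing from `h` to `h+1` changes the sum `∑_{n ∈ (N,M]} f(n+h)` by `f(M+h+1) - f(N+h+1)` if `N < M`).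
Sum over `h < H`: `H ‖∑ f‖ ≤ ‖∑_{h<H} ∑_n f(n+h)‖ + ∑_{h<H} 2 h`, `∑_{h<H} 2h = H(H-1) ≤ H^2`; exchange the sums, divide by `H`.
-/

set_option autoImplicit false

namespace Pool.Agent.Lib.ZB

open Finset

private theorem A_tel (g : ℕ → ℂ) (N M : ℕ) (hNM : N ≤ M) :
    ∑ n ∈ Ioc N M, (g n - g (n + 1)) = g (N + 1) - g (M + 1) := by
  induction M, hNM using Nat.le_induction with
  | base => simp
  | succ M hM ih =>
    rw [Finset.sum_Ioc_succ_top hM, ih]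
    ring

private theorem A_shift (f : ℕ → ℂ) (hf : ∀ n, ‖f n‖ ≤ 1) (N M : ℕ) (hNM : N ≤ M) (h : ℕ) :
    ‖∑ n ∈ Ioc N M, f n - ∑ n ∈ Ioc N M, f (n + h)‖ ≤ 2 * (h : ℝ) := by
  induction h with
  | zero => simp
  | succ h ih =>
    have h1 : ∑ n ∈ Ioc N M, f (n + h) - ∑ n ∈ Ioc N M, f (n + (h + 1)) =
        f (N + 1 + h) - f (M + 1 + h) := by
      have h2 := A_tel (fun n => f (n + h)) N M hNM
      rw [← h2, ← Finset.sum_sub_distrib]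
      refine Finset.sum_congr rfl fun n _ => ?_
      rw [show n + (h + 1) = n + 1 + h by ring]
    have h3 : ∑ n ∈ Ioc N M, f n - ∑ n ∈ Ioc N M, f (n + (h + 1)) =
        (∑ n ∈ Ioc N M, f n - ∑ n ∈ Ioc N M, f (n + h)) + (f (N + 1 + h) - f (M + 1 + h)) := by
      rw [← h1]
      ring
    rw [h3]
    have h4 := norm_add_le (∑ n ∈ Ioc N M, f n - ∑ n ∈ Ioc N M, f (n + h)) (f (N + 1 + h) - f (M + 1 + h))
    have h5 := norm_sub_le (f (N + 1 + h)) (f (M + 1 + h))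
    have h6 := hf (N + 1 + h)
    have h7 := hf (M + 1 + h)
    push_cast
    linarith

theorem shiftAv (f : ℕ → ℂ) (hf : ∀ n, ‖f n‖ ≤ 1) (N M H : ℕ) (hH : 1 ≤ H) (hNM : N ≤ M) :
    ‖∑ n ∈ Ioc N M, f n‖ ≤ 1 / (H : ℝ) * ∑ n ∈ Ioc N M, ‖∑ h ∈ range H, f (n + h)‖ + H := by
  have hH0 : (0 : ℝ) < H := by exact_mod_cast hH
  have h1 : (H : ℂ) * ∑ n ∈ Ioc N M, f n =
      ∑ h ∈ range H, (∑ n ∈ Ioc N M, f n - ∑ n ∈ Ioc N M, f (n + h)) +
        ∑ n ∈ Ioc N M, ∑ h ∈ range H, f (n + h) := by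
    rw [Finset.sum_sub_distrib, Finset.sum_const, card_range, nsmul_eq_mul,
      Finset.sum_comm (s := range H) (t := Ioc N M)]
    ring
  have h2 : ‖∑ h ∈ range H, (∑ n ∈ Ioc N M, f n - ∑ n ∈ Ioc N M, f (n + h))‖ ≤ (H : ℝ) ^ 2 := by
    refine (norm_sum_le _ _).trans ?_
    refine (Finset.sum_le_sum fun h _ => A_shift f hf N M hNM h).trans ?_
    rw [← Finset.mul_sum]
    have h3 : (∑ h ∈ range H, (h : ℝ)) * 2 = (H : ℝ) * (H - 1) := by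
      have h4 := Finset.sum_range_id_mul_two H
      have h5 : (((∑ h ∈ range H, h) * 2 : ℕ) : ℝ) = ((H * (H - 1) : ℕ) : ℝ) := by rw [h4]
      push_cast [Nat.cast_sub hH] at h5
      exact h5
    nlinarith
  have h6 : (H : ℝ) * ‖∑ n ∈ Ioc N M, f n‖ ≤
      (H : ℝ) ^ 2 + ∑ n ∈ Ioc N M, ‖∑ h ∈ range H, f (n + h)‖ := by
    have h7 : (H : ℝ) * ‖∑ n ∈ Ioc N M, f n‖ = ‖(H : ℂ) * ∑ n ∈ Ioc N M, f n‖ := by
      rw [norm_mul, Complex.norm_natCast]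
    rw [h7, h1]
    refine (norm_add_le _ _).trans (add_le_add h2 (norm_sum_le _ _))
  have h8 : ‖∑ n ∈ Ioc N M, f n‖ ≤
      ((H : ℝ) ^ 2 + ∑ n ∈ Ioc N M, ‖∑ h ∈ range H, f (n + h)‖) / H := by
    rw [le_div_iff₀ hH0]
    linarith
  refine h8.trans (le_of_eq ?_)
  field_simp
  ring

end Pool.Agent.Lib.ZB
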