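import Pool.Agent.Lib.ZB.T1

/-!
# ZB / T2 (150 lines): Taylor polynomial and Abel summation for a short block

PROOF.  `(n+h)^(-it) = n^(-it) exp(-i t log(1 + h/n))` (`n ≥ 1`), and
`-t log(1+h/n) = -t ∑_{j ≤ k} (-1)^(j+1) (h/n)^j/j - t rem k (h/n) = 2 π ph k (cz t n) h - t rem k (h/n)`
(`cz t n j = (-1)^j t/(2 π j n^j)`).  So with `a h = e (ph k (cz t n) h)`, `g h = exp(-i t rem k (h/n))` the block is `n^(-it) ∑_{h<H} a h g h`.
Abel summation with `S h = ∑_{i<h} a i`: `∑_{h<H} a h g h = S H g (H-1) - ∑_{h<H-1} S (h+1) (g (h+1) - g h)` (`Finset.sum_range_by_parts`),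
`‖g‖ = 1`, `‖g (h+1) - g h‖ ≤ t |rem k ((h+1)/n) - rem k (h/n)| ≤ t (((h+1)/n)^(k+1) - (h/n)^(k+1))/(k+1)` (`‖exp(ia) - exp(ib)‖ ≤ |a-b|`, `rem_var`),
the sum over `h < H-1` telescopes to `≤ t (H/n)^(k+1)/(k+1) ≤ 1` by the hypothesis.  So the block is `≤ B (1 + 1)`.
-/

set_option autoImplicit false

namespace Pool.Agent.Lib.ZB

open Finset

private theorem t2_abel (a g : ℕ → ℂ) (m : ℕ) :
    ∑ h ∈ range (m + 1), a h * g h
      = (∑ h ∈ range (m + 1), a h) * g m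
        - ∑ h ∈ range m, (∑ i ∈ range (h + 1), a i) * (g (h + 1) - g h) := by
  induction m with
  | zero => simp
  | succ m ih =>
    rw [sum_range_succ, ih, sum_range_succ (fun h => (∑ i ∈ range (h + 1), a i) * (g (h + 1) - g h)),
      sum_range_succ a (m + 1)]
    ring

private theorem t2_abel_le (a g : ℕ → ℂ) (H : ℕ) (B : ℝ)
    (hB : ∀ H' ≤ H, ‖∑ h ∈ range H', a h‖ ≤ B) (hg : ∀ h, ‖g h‖ = 1)
    (hv : ∀ m, m < H → ∑ h ∈ range m, ‖g (h + 1) - g h‖ ≤ 1) :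
    ‖∑ h ∈ range H, a h * g h‖ ≤ 2 * B := by
  have hB0 : 0 ≤ B := (norm_nonneg _).trans (hB 0 (Nat.zero_le _))
  cases H with
  | zero => simpa using hB0
  | succ m =>
    rw [t2_abel]
    refine (norm_sub_le _ _).trans ?_
    rw [norm_mul, hg, mul_one]
    have h1 : ‖∑ h ∈ range m, (∑ i ∈ range (h + 1), a i) * (g (h + 1) - g h)‖ ≤ B * 1 := by
      refine (norm_sum_le _ _).trans ?_
      calc ∑ h ∈ range m, ‖(∑ i ∈ range (h + 1), a i) * (g (h + 1) - g h)‖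
          ≤ ∑ h ∈ range m, B * ‖g (h + 1) - g h‖ := by
            refine sum_le_sum fun h hh => ?_
            rw [norm_mul]
            refine mul_le_mul_of_nonneg_right (hB _ ?_) (norm_nonneg _)
            have := mem_range.1 hh
            omega
        _ = B * ∑ h ∈ range m, ‖g (h + 1) - g h‖ := by rw [mul_sum]
        _ ≤ B * 1 := mul_le_mul_of_nonneg_left (hv m (Nat.lt_succ_self m)) hB0
    have h2 := hB (m + 1) le_rfl
    linarith

/-- `E x = exp(i x)` -/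
private noncomputable def t2E (x : ℝ) : ℂ := Complex.exp ((x : ℂ) * Complex.I)

private theorem t2E_norm (x : ℝ) : ‖t2E x‖ = 1 := Complex.norm_exp_ofReal_mul_I x

private theorem t2E_add (x y : ℝ) : t2E (x + y) = t2E x * t2E y := by
  unfold t2E
  rw [← Complex.exp_add]
  congr 1
  push_cast
  ring

private theorem t2E_sub (x y : ℝ) : ‖t2E x - t2E y‖ ≤ |x - y| := by
  have h1 : t2E x - t2E y = t2E y * (t2E (x - y) - 1) := by
    rw [mul_sub, ← t2E_add, mul_one]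
    congr 2
    ring
  rw [h1, norm_mul, t2E_norm, one_mul]
  have h2 := Real.norm_exp_I_mul_ofReal_sub_one_le (x := x - y)
  rw [Real.norm_eq_abs] at h2
  unfold t2E
  rw [mul_comm]
  exact h2

private theorem t2_e (x : ℝ) : e x = t2E (2 * Real.pi * x) := rfl

private theorem t2_term (k : ℕ) (t : ℝ) (n h : ℕ) (hn : 1 ≤ n) :
    ((n + h : ℕ) : ℂ) ^ (-((t : ℂ) * Complex.I))
      = t2E (-t * Real.log n) * (e (ph k (cz t n) h) * t2E (-t * rem k ((h : ℝ) / n))) := by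
  have hn0 : (0 : ℝ) < n := by exact_mod_cast hn
  have hh0 : (0 : ℝ) ≤ h := Nat.cast_nonneg h
  have hne : ((n + h : ℕ) : ℂ) ≠ 0 := by
    exact_mod_cast (by omega : n + h ≠ 0)
  rw [t2_e, ← t2E_add, ← t2E_add, Complex.cpow_def_of_ne_zero hne, ← Complex.natCast_log]
  unfold t2E
  congr 1
  have h1 : Real.log ((n + h : ℕ) : ℝ) = Real.log n + Real.log (1 + (h : ℝ) / n) := by
    rw [← Real.log_mul hn0.ne' (by positivity)]
    congr 1
    push_cast
    field_simp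
  have h2 : 2 * Real.pi * ph k (cz t n) h
      = -t * ∑ j ∈ Icc 1 k, (-1) ^ (j + 1) * ((h : ℝ) / n) ^ j / (j : ℝ) := by
    unfold ph cz
    rw [mul_sum, mul_sum]
    refine sum_congr rfl fun j hj => ?_
    have hj0 : (0 : ℝ) < j := by exact_mod_cast (mem_Icc.1 hj).1
    have hpi := Real.pi_pos
    rw [div_pow, pow_succ (-1 : ℝ) j]
    field_simp
  have h3 : -t * Real.log n + (2 * Real.pi * ph k (cz t n) h + -t * rem k ((h : ℝ) / n))
      = -t * Real.log ((n + h : ℕ) : ℝ) := by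
    rw [h1, h2]
    unfold rem
    ring
  rw [h3]
  push_cast
  ring

theorem blockT (k : ℕ) (t : ℝ) (ht : 0 ≤ t) (n H : ℕ) (hn : 1 ≤ n)
    (hH : t * (H : ℝ) ^ (k + 1) ≤ (n : ℝ) ^ (k + 1)) (B : ℝ)
    (hB : ∀ H' ≤ H, ‖∑ h ∈ range H', e (ph k (cz t n) h)‖ ≤ B) :
    ‖∑ h ∈ range H, ((n + h : ℕ) : ℂ) ^ (-((t : ℂ) * Complex.I))‖ ≤ 2 * B := by
  have hn0 : (0 : ℝ) < n := by exact_mod_cast hn
  have h1 : ∑ h ∈ range H, ((n + h : ℕ) : ℂ) ^ (-((t : ℂ) * Complex.I))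
      = t2E (-t * Real.log n)
        * ∑ h ∈ range H, e (ph k (cz t n) h) * t2E (-t * rem k ((h : ℝ) / n)) := by
    rw [mul_sum]
    exact sum_congr rfl fun h _ => t2_term k t n h hn
  rw [h1, norm_mul, t2E_norm, one_mul]
  refine t2_abel_le _ (fun h => t2E (-t * rem k ((h : ℝ) / n))) H B hB (fun h => t2E_norm _) ?_
  intro m hm
  have hk : (0 : ℝ) < (k : ℝ) + 1 := by positivity
  have h2 : ∀ h ∈ range m, ‖t2E (-t * rem k (((h + 1 : ℕ) : ℝ) / n)) - t2E (-t * rem k ((h : ℝ) / n))‖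
      ≤ t / (k + 1) * ((((h + 1 : ℕ) : ℝ) / n) ^ (k + 1) - ((h : ℝ) / n) ^ (k + 1)) := by
    intro h _
    refine (t2E_sub _ _).trans ?_
    have h3 : -t * rem k (((h + 1 : ℕ) : ℝ) / n) - -t * rem k ((h : ℝ) / n)
        = -t * (rem k (((h + 1 : ℕ) : ℝ) / n) - rem k ((h : ℝ) / n)) := by ring
    rw [h3, abs_mul, abs_neg, abs_of_nonneg ht]
    have h4 := rem_var k ((h : ℝ) / n) (((h + 1 : ℕ) : ℝ) / n) (by positivity)
      (by
        push_cast
        gcongr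
        linarith)
    calc t * |rem k (((h + 1 : ℕ) : ℝ) / n) - rem k ((h : ℝ) / n)|
        ≤ t * (((((h + 1 : ℕ) : ℝ) / n) ^ (k + 1) - ((h : ℝ) / n) ^ (k + 1)) / (k + 1)) :=
          mul_le_mul_of_nonneg_left h4 ht
      _ = _ := by ring
  refine (sum_le_sum h2).trans ?_
  rw [← mul_sum, sum_range_sub (fun h : ℕ => ((h : ℝ) / n) ^ (k + 1))]
  have h5 : ((m : ℝ) / n) ^ (k + 1) ≤ ((H : ℝ) / n) ^ (k + 1) := by
    have : (m : ℝ) ≤ H := by exact_mod_cast hm.le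
    gcongr
  have h6 : t * ((H : ℝ) / n) ^ (k + 1) ≤ 1 := by
    rw [div_pow, ← mul_div_assoc, div_le_one (by positivity)]
    exact hH
  have h7 : (0 : ℝ) ≤ (((0 : ℕ) : ℝ) / n) ^ (k + 1) := by positivity
  have h8 : t * ((m : ℝ) / n) ^ (k + 1) ≤ 1 :=
    (mul_le_mul_of_nonneg_left h5 ht).trans h6
  calc t / (k + 1) * (((m : ℝ) / n) ^ (k + 1) - (((0 : ℕ) : ℝ) / n) ^ (k + 1))
      ≤ t / (k + 1) * ((m : ℝ) / n) ^ (k + 1) := by
        refine mul_le_mul_of_nonneg_left (by linarith) (by positivity)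
    _ = (t * ((m : ℝ) / n) ^ (k + 1)) / (k + 1) := by ring
    _ ≤ 1 / (k + 1) := by gcongr
    _ ≤ 1 := by
        rw [div_le_one hk]
        have : (0 : ℝ) ≤ k := Nat.cast_nonneg k
        linarith

end Pool.Agent.Lib.ZB
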