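import Pool.Agent.Lib.ZB.E

/-!
# ZB / C (150 lines): completion

PROOF.  For `h, h' < H` orthogonality gives `[h = h'] = (1/H) ∑_{r<H} e((h - h') r/H)` (geometric sum of the root of unity `e((h-h')/H) ≠ 1`;
`exp(2 π i x) = 1` iff `x` is an integer, and `0 < |h - h'| < H`).  Hence for `H' ≤ H`:
`∑_{h<H'} a h = ∑_{r<H} ((1/H) ∑_{h'<H'} e(-h' r/H)) (∑_{h<H} a h e(h r/H))`.  The inner factor: for `r = 0` it is `H'/H ≤ 1`; for `0 < r < H` it is a
geometric sum: `‖∑_{h'<H'} z^h'‖ ≤ 2/‖z - 1‖`, `‖e(-r/H) - 1‖ = 2 |sin(π r/H)| ≥ 4 min(r, H-r)/H` (concavity, `Real.mul_le_sin` /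
`Real.mul_abs_le_abs_sin`), so the factor is `≤ 1/(2 min(r, H-r)) ≤ 1/(2r) + 1/(2(H-r)) = lamC H r`.
(`geo_mul`, `e_sub_one` of `ZB/E.lean` (landed) give the geometric sum and `‖e v - 1‖ ≥ 4 |v|` for `|v| ≤ 1/2`; for `r > H/2` use `v = (H - r)/H`, `e_int`.)
Sum of the weights: `1 + ∑_{0<r<H} 1/r` (reflection `r ↦ H - r`) `≤ 1 + 1 + log H` (harmonic sum: `harmonic_le_one_add_log`).
-/

set_option autoImplicit false

namespace Pool.Agent.Lib.ZB

open Finset

theorem lamC_nonneg (H r : ℕ) (hr : r < H) : 0 ≤ lamC H r := by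
  unfold lamC
  split_ifs with h
  · norm_num
  · have h1 : (r : ℝ) < H := by exact_mod_cast hr
    have h2 : (0 : ℝ) ≤ r := Nat.cast_nonneg _
    have h3 : 0 < (H : ℝ) - r := by linarith
    positivity

theorem lamC_sum (H : ℕ) (hH : 1 ≤ H) : ∑ r ∈ range H, lamC H r ≤ 2 + Real.log H := by
  obtain ⟨n, rfl⟩ : ∃ n, H = n + 1 := ⟨H - 1, by omega⟩
  rw [sum_range_succ']
  have h0 : lamC (n + 1) 0 = 1 := by
    unfold lamC
    rw [if_pos rfl]
  have h1 : ∑ r ∈ range n, lamC (n + 1) (r + 1) = ∑ r ∈ range n, 1 / ((r : ℝ) + 1) := by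
    have e1 : ∀ r ∈ range n, lamC (n + 1) (r + 1) =
        1 / (2 * ((r : ℝ) + 1)) + (fun j : ℕ => 1 / (2 * ((j : ℝ) + 1))) (n - 1 - r) := by
      intro r hr
      rw [mem_range] at hr
      unfold lamC
      rw [if_neg (Nat.succ_ne_zero r)]
      have e2 : (((n - 1 - r : ℕ) : ℝ)) + 1 = n - r := by
        rw [Nat.cast_sub (by omega), Nat.cast_sub (by omega)]
        push_cast
        ring
      simp only
      rw [e2]
      push_cast
      ring_nf
    rw [sum_congr rfl e1, sum_add_distrib, sum_range_reflect (fun j : ℕ => 1 / (2 * ((j : ℝ) + 1))) n,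
      ← sum_add_distrib]
    refine sum_congr rfl fun r _ => ?_
    have : (r : ℝ) + 1 ≠ 0 := by positivity
    field_simp
    norm_num
  have h2 : ∑ r ∈ range n, 1 / ((r : ℝ) + 1) = ((harmonic n : ℚ) : ℝ) := by
    unfold harmonic
    push_cast
    exact sum_congr rfl fun r _ => by rw [one_div]
  have h3 := harmonic_le_one_add_log n
  have h4 : Real.log n ≤ Real.log ((n + 1 : ℕ) : ℝ) := by
    rcases Nat.eq_zero_or_pos n with h | h
    · rw [h]
      simp
    · refine Real.log_le_log (by exact_mod_cast h) ?_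
      exact_mod_cast Nat.le_succ n
  rw [h0, h1, h2]
  linarith

/-- orthogonality -/
private theorem complH_orth (H h h' : ℕ) (hh : h < H) (hh' : h' < H) :
    ∑ r ∈ range H, e (((h : ℝ) - h') * r / H) = if h = h' then (H : ℂ) else 0 := by
  have hH0 : (H : ℝ) ≠ 0 := by
    have : 0 < H := by omega
    exact_mod_cast this.ne'
  split_ifs with hc
  · rw [hc]
    simp [e_zero]
  · set x : ℝ := ((h : ℝ) - h') / H with hx
    have e1 : ∀ r ∈ range H, e (((h : ℝ) - h') * r / H) = e x ^ r := by
      intro r _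
      rw [← e_nat_mul]
      congr 1
      rw [hx]
      ring
    rw [sum_congr rfl e1]
    have hne : e x ≠ 1 := by
      intro h1
      unfold e at h1
      rw [Complex.exp_eq_one_iff] at h1
      obtain ⟨m, hm⟩ := h1
      have h2 : ((2 * Real.pi * x : ℝ) : ℂ) = ((m * (2 * Real.pi) : ℝ) : ℂ) := by
        have h3 : ((2 * Real.pi * x : ℝ) : ℂ) * Complex.I =
            ((m * (2 * Real.pi) : ℝ) : ℂ) * Complex.I := by
          rw [hm]
          push_cast
          ring
        exact mul_right_cancel₀ Complex.I_ne_zero h3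
      have h4 : 2 * Real.pi * x = m * (2 * Real.pi) := by exact_mod_cast h2
      have h5 : x = m := by
        have : (2 * Real.pi) ≠ 0 := by positivity
        have h6 : (2 * Real.pi) * x = (2 * Real.pi) * m := by rw [h4]; ring
        exact mul_left_cancel₀ this h6
      have h7 : (h : ℝ) - h' = m * H := by
        rw [← h5, hx]
        field_simp
      have h8 : (h : ℤ) - h' = m * H := by exact_mod_cast h7
      have h9 : m = 0 := by
        by_contra h10
        rcases lt_or_gt_of_ne h10 with h11 | h11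
        · have : m * (H : ℤ) ≤ -1 * H := mul_le_mul_of_nonneg_right (by omega) (by omega)
          omega
        · have : 1 * (H : ℤ) ≤ m * H := mul_le_mul_of_nonneg_right (by omega) (by omega)
          omega
      rw [h9, zero_mul] at h8
      omega
    have hpow : e x ^ H = 1 := by
      rw [← e_nat_mul, hx, mul_div_cancel₀ _ hH0]
      have := e_int ((h : ℤ) - h')
      push_cast at this
      exact this
    have h2 := geom_sum_mul (e x) H
    rw [hpow, sub_self] at h2
    exact (mul_eq_zero.1 h2).resolve_right (sub_ne_zero.2 hne)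

/-- the weights -/
private theorem complH_w (H H' r : ℕ) (hH' : H' ≤ H) (hr : r < H) :
    ‖(1 / (H : ℂ)) * ∑ h' ∈ range H', e (-((h' : ℝ) * r / H))‖ ≤ lamC H r := by
  have hH : 0 < H := by omega
  have hHr : (0 : ℝ) < H := by exact_mod_cast hH
  rw [norm_mul, norm_div, norm_one, Complex.norm_natCast]
  unfold lamC
  split_ifs with h0
  · rw [h0]
    have h1 : ‖∑ h' ∈ range H', e (-((h' : ℝ) * (0 : ℕ) / H))‖ ≤ H := by
      refine (norm_sum_le _ _).trans ?_
      rw [sum_congr rfl fun h' _ => norm_e _, sum_const, card_range, nsmul_eq_mul, mul_one]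
      exact_mod_cast hH'
    rw [one_div_mul_eq_div, div_le_one hHr]
    exact h1
  · have hr0 : (0 : ℝ) < r := by exact_mod_cast Nat.pos_of_ne_zero h0
    have hrH : (r : ℝ) < H := by exact_mod_cast hr
    have hHr2 : 0 < (H : ℝ) - r := by linarith
    have e1 : ∑ h' ∈ range H', e (-((h' : ℝ) * r / H)) = ∑ j ∈ range H', e ((j : ℝ) * (-(r / H))) := by
      refine sum_congr rfl fun j _ => ?_
      congr 1
      ring
    rw [e1]
    have h1 := geo_mul H' (-((r : ℝ) / H))
    set G := ‖∑ j ∈ range H', e ((j : ℝ) * (-((r : ℝ) / H)))‖ with hG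
    have hG0 : 0 ≤ G := norm_nonneg _
    rcases le_or_gt (2 * (r : ℝ)) H with hc | hc
    · have h2 := e_sub_one (-((r : ℝ) / H)) (by
        rw [abs_neg, abs_of_pos (by positivity), div_le_div_iff₀ hHr (by norm_num)]
        linarith)
      rw [abs_neg, abs_of_pos (by positivity)] at h2
      have h3 : G * (4 * (r / H)) ≤ 2 := (mul_le_mul_of_nonneg_left h2 hG0).trans h1
      have h4 : 1 / (H : ℝ) * G ≤ 1 / (2 * r) := by
        rw [one_div_mul_eq_div, div_le_div_iff₀ hHr (by positivity)]
        have h5 : G * (4 * (r / H)) * H = G * (4 * r) := by field_simp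
        nlinarith
      have : 0 < 1 / (2 * ((H : ℝ) - r)) := by positivity
      linarith
    · have h2 := e_sub_one (((H : ℝ) - r) / H) (by
        rw [abs_of_pos (by positivity), div_le_div_iff₀ hHr (by norm_num)]
        linarith)
      rw [abs_of_pos (by positivity)] at h2
      have e2 : e (((H : ℝ) - r) / H) = e (-((r : ℝ) / H)) := by
        have : ((H : ℝ) - r) / H = ((1 : ℤ) : ℝ) + -((r : ℝ) / H) := by
          push_cast
          field_simp
          ring
        rw [this, e_add, e_int, one_mul]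
      rw [e2] at h2
      have h3 : G * (4 * ((H - r) / H)) ≤ 2 := (mul_le_mul_of_nonneg_left h2 hG0).trans h1
      have h4 : 1 / (H : ℝ) * G ≤ 1 / (2 * (H - r)) := by
        rw [one_div_mul_eq_div, div_le_div_iff₀ hHr (by positivity)]
        have h5 : G * (4 * ((H - r) / H)) * H = G * (4 * (H - r)) := by field_simp
        nlinarith
      have : 0 < 1 / (2 * (r : ℝ)) := by positivity
      linarith

theorem complH (H : ℕ) (a : ℕ → ℂ) (H' : ℕ) (hH' : H' ≤ H) :
    ‖∑ h ∈ range H', a h‖ ≤ ∑ r ∈ range H, lamC H r * ‖∑ h ∈ range H, a h * e ((h : ℝ) * r / H)‖ := by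
  rcases Nat.eq_zero_or_pos H with h0 | h0
  · have : H' = 0 := by omega
    rw [h0, this]
    simp
  have hHc : (H : ℂ) ≠ 0 := by exact_mod_cast h0.ne'
  have key : ∑ h ∈ range H', a h = ∑ r ∈ range H,
      ((1 / (H : ℂ)) * ∑ h' ∈ range H', e (-((h' : ℝ) * r / H))) *
        ∑ h ∈ range H, a h * e ((h : ℝ) * r / H) := by
    have e1 : ∑ r ∈ range H, ((1 / (H : ℂ)) * ∑ h' ∈ range H', e (-((h' : ℝ) * r / H))) *
        ∑ h ∈ range H, a h * e ((h : ℝ) * r / H) =
        ∑ h' ∈ range H', ∑ h ∈ range H, a h * ((1 / (H : ℂ)) *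
          ∑ r ∈ range H, e (((h : ℝ) - h') * r / H)) := by
      have e2 : ∀ r ∈ range H, ((1 / (H : ℂ)) * ∑ h' ∈ range H', e (-((h' : ℝ) * r / H))) *
          ∑ h ∈ range H, a h * e ((h : ℝ) * r / H) =
          ∑ h' ∈ range H', ∑ h ∈ range H, a h * ((1 / (H : ℂ)) * e (((h : ℝ) - h') * r / H)) := by
        intro r _
        rw [mul_assoc, sum_mul_sum, mul_sum]
        refine sum_congr rfl fun h' _ => ?_
        rw [mul_sum]
        refine sum_congr rfl fun h _ => ?_
        have : ((h : ℝ) - h') * r / H = -((h' : ℝ) * r / H) + (h : ℝ) * r / H := by ring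
        rw [this, e_add]
        ring
      rw [sum_congr rfl e2, sum_comm]
      refine sum_congr rfl fun h' _ => ?_
      rw [sum_comm]
      refine sum_congr rfl fun h _ => ?_
      rw [mul_sum, mul_sum]
    rw [e1]
    refine sum_congr rfl fun h' hh' => ?_
    rw [mem_range] at hh'
    have e3 : ∀ h ∈ range H, a h * ((1 / (H : ℂ)) * ∑ r ∈ range H, e (((h : ℝ) - h') * r / H)) =
        if h = h' then a h else 0 := by
      intro h hh
      rw [complH_orth H h h' (mem_range.1 hh) (by omega)]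
      split_ifs
      · field_simp
      · ring
    rw [sum_congr rfl e3, sum_ite_eq' (range H) h' a, if_pos (mem_range.2 (by omega))]
  rw [key]
  refine (norm_sum_le _ _).trans (sum_le_sum fun r hr => ?_)
  rw [norm_mul]
  exact mul_le_mul_of_nonneg_right (complH_w H H' r hH' (mem_range.1 hr)) (norm_nonneg _)

end Pool.Agent.Lib.ZB
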