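import Pool.Agent.Lib.ZB.B
import Pool.Agent.Lib.VM.Vmvt

/-!
# ZB / Br: the bridge from `VM.vmvt` (variables `1, ..., N`) to `VMV` (variables `0, ..., N-1`)
-/

set_option autoImplicit false

namespace Pool.Agent.Lib.ZB

open Finset

theorem vj_eq_jj (s k N : ℕ) : VJ s k N = VM.JJ s k N := by
  classical
  unfold VJ VM.JJ VM.sols
  congr 1
  ext p
  simp only [mem_filter, mem_univ, true_and]
  exact (shiftVJ k p.1 p.2).symm

/-- Vinogradov's mean value theorem in the form used by `zblkV` and `HB.hblk` -/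
theorem vmv : VMV := by
  intro k hk ε hε
  obtain ⟨C, hC, h⟩ := VM.vmvt k hk ε hε
  refine ⟨C, hC.le, fun N hN => ?_⟩
  rw [vj_eq_jj]
  exact h N hN

end Pool.Agent.Lib.ZB
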