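import Pool.Agent.Lib.ZB.E

/-!
# ZB / K1 (70 lines): the Dirichlet kernel

PROOF.  The first bound is trivial.  Second: `e(j y) = e(j (y - m))` (`e_int`, `j m` is an integer), so let `v = y - m`, `|v| ≤ 1/2`.
`(∑_{j<U} e(j v)) (e v - 1) = e(U v) - 1` (`e (j v) = (e v)^j`, geometric sum), norm `≤ 2`; `‖e v - 1‖ = 2 |sin(π v)| ≥ 4 |v|`
(`Real.mul_abs_le_abs_sin` or `Real.mul_le_sin`: `sin x ≥ (2/π) x` on `[0, π/2]`).  So `‖∑‖ 4 |v| ≤ 2`.
(`geo_mul` and `e_sub_one` of `ZB/E.lean` (landed) are exactly these two facts.)  `ker_neg`: the conjugate sum (`e_conj`).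
-/

set_option autoImplicit false

namespace Pool.Agent.Lib.ZB

open Finset

theorem ker_le (U : ℕ) (y : ℝ) : ‖∑ j ∈ range U, e ((j : ℝ) * y)‖ ≤ U := by
  refine (norm_sum_le _ _).trans ?_
  simp [norm_e]

theorem ker_mul (U : ℕ) (y : ℝ) (m : ℤ) (hm : |y - m| ≤ 1 / 2) :
    ‖∑ j ∈ range U, e ((j : ℝ) * y)‖ * (2 * |y - m|) ≤ 1 := by
  have h1 : ∑ j ∈ range U, e ((j : ℝ) * y) = ∑ j ∈ range U, e ((j : ℝ) * (y - m)) := by
    refine sum_congr rfl fun j _ => ?_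
    have h2 : (j : ℝ) * y = (j : ℝ) * (y - m) + (((j : ℤ) * m : ℤ) : ℝ) := by
      push_cast
      ring
    rw [h2, e_add, e_int, mul_one]
  rw [h1]
  have h3 := geo_mul U (y - m)
  have h4 := e_sub_one (y - m) hm
  have h5 := mul_le_mul_of_nonneg_left h4 (norm_nonneg (∑ j ∈ range U, e ((j : ℝ) * (y - m))))
  linarith

theorem ker_neg (U : ℕ) (y : ℝ) :
    ‖∑ j ∈ range U, e ((j : ℝ) * (-y))‖ = ‖∑ j ∈ range U, e ((j : ℝ) * y)‖ := by
  have h1 : ∑ j ∈ range U, e ((j : ℝ) * (-y)) = (starRingEnd ℂ) (∑ j ∈ range U, e ((j : ℝ) * y)) := by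
    rw [map_sum]
    refine sum_congr rfl fun j _ => ?_
    rw [e_conj, mul_neg]
  rw [h1, RCLike.norm_conj]

end Pool.Agent.Lib.ZB
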