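import Pool.Agent.Lib.ZB.Defs

/-!
# ZB / B (70 lines): translation invariance of Vinogradov's system

PROOF.  Binomial theorem: `∑_i (x i + 1)^j = ∑_{a ≤ j} C(j, a) ∑_i (x i)^a` (`add_pow`, exchange of the sums), the term `a = j` is `∑_i (x i)^j`, the term `a = 0` is
`s`.  Both directions by strong induction on `j ≤ k`: if the power sums of all smaller orders `1 ≤ a < j` agree (original ones), then the shifted sums of order `j`
agree iff the original ones agree (cancel the equal parts in `ℕ`).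
-/

set_option autoImplicit false

namespace Pool.Agent.Lib.ZB

open Finset

private theorem b_expand {s N : ℕ} (x : Fin s → Fin N) (n : ℕ) :
    (∑ i, ((x i : ℕ) + 1) ^ (n + 1)) =
      (∑ m ∈ range (n + 1), (n + 1).choose m * ∑ i, (x i : ℕ) ^ m) + ∑ i, (x i : ℕ) ^ (n + 1) := by
  have h1 : ∀ i, ((x i : ℕ) + 1) ^ (n + 1) =
      (∑ m ∈ range (n + 1), (n + 1).choose m * (x i : ℕ) ^ m) + (x i : ℕ) ^ (n + 1) := by
    intro i
    rw [add_pow, sum_range_succ]
    simp only [one_pow, mul_one, Nat.choose_self, Nat.cast_id, Nat.cast_one]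
    congr 1
    exact sum_congr rfl fun m _ => Nat.mul_comm _ _
  rw [sum_congr rfl fun i _ => h1 i, sum_add_distrib, sum_comm]
  congr 1
  refine sum_congr rfl fun m _ => ?_
  rw [mul_sum]

theorem shiftVJ {s N : ℕ} (k : ℕ) (x y : Fin s → Fin N) :
    (∀ j ∈ Icc 1 k, (∑ i, ((x i : ℕ) + 1) ^ j) = ∑ i, ((y i : ℕ) + 1) ^ j) ↔
      ∀ j ∈ Icc 1 k, (∑ i, (x i : ℕ) ^ j) = ∑ i, (y i : ℕ) ^ j := by
  induction k with
  | zero => simp
  | succ n ih =>
    have hsplit : ∀ P : ℕ → Prop, (∀ j ∈ Icc 1 (n + 1), P j) ↔ (∀ j ∈ Icc 1 n, P j) ∧ P (n + 1) := by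
      intro P
      constructor
      · intro h
        refine ⟨fun j hj => h j ?_, h (n + 1) ?_⟩
        · rw [mem_Icc] at hj ⊢
          omega
        · rw [mem_Icc]
          omega
      · rintro ⟨h1, h2⟩ j hj
        rw [mem_Icc] at hj
        by_cases hj2 : j = n + 1
        · rw [hj2]
          exact h2
        · exact h1 j (mem_Icc.mpr ⟨hj.1, by omega⟩)
    rw [hsplit, hsplit, ih]
    refine and_congr_right fun h => ?_
    rw [b_expand x n, b_expand y n]
    have h1 : (∑ m ∈ range (n + 1), (n + 1).choose m * ∑ i, (x i : ℕ) ^ m) =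
        ∑ m ∈ range (n + 1), (n + 1).choose m * ∑ i, (y i : ℕ) ^ m := by
      refine sum_congr rfl fun m hm => ?_
      rw [mem_range] at hm
      rcases Nat.eq_zero_or_pos m with h0 | h0
      · subst h0
        simp
      · rw [h m (mem_Icc.mpr ⟨h0, by omega⟩)]
    rw [h1]
    exact Nat.add_left_cancel_iff

end Pool.Agent.Lib.ZB
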