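import Mathlib

/-!
# ZB: zeta blocks from Vinogradov's mean value theorem, definitions

`VJ s k N` counts the solutions of Vinogradov's system of degree `k` with `s + s` variables in `0, ..., N-1`;
`VMV` is the main conjecture (theorem of Bourgain-Demeter-Guth and Wooley) at the critical exponent;
`e x = exp(2 π i x)`; `ph k c h = ∑_{1 ≤ j ≤ k} c j h^j`; `cz t n j` are the Taylor coefficients of the phase of
`(n+h)^(-it) n^(it)`: `(-1)^j t / (2 π j n^j)`.
-/

set_option autoImplicit false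

namespace Pool.Agent.Lib.ZB

open Finset

open Classical in
/-- number of solutions of Vinogradov's system, variables `0, ..., N-1` -/
noncomputable def VJ (s k N : ℕ) : ℕ :=
  (Finset.univ.filter fun p : (Fin s → Fin N) × (Fin s → Fin N) =>
    ∀ j ∈ Finset.Icc 1 k, ∑ i, (p.1 i : ℕ) ^ j = ∑ i, (p.2 i : ℕ) ^ j).card

/-- the main conjecture of Vinogradov's mean value theorem at the critical exponent, all degrees -/
def VMV : Prop :=
  ∀ k : ℕ, 1 ≤ k → ∀ ε : ℝ, 0 < ε → ∃ C : ℝ, 0 ≤ C ∧ ∀ N : ℕ, 1 ≤ N →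
    (VJ (k * (k + 1) / 2) k N : ℝ) ≤ C * (N : ℝ) ^ (((k * (k + 1) / 2 : ℕ) : ℝ) + ε)

/-- `e(x) = exp(2 π i x)` -/
noncomputable def e (x : ℝ) : ℂ := Complex.exp (((2 * Real.pi * x : ℝ) : ℂ) * Complex.I)

theorem e_zero : e 0 = 1 := by
  unfold e
  simp

theorem e_add (x y : ℝ) : e (x + y) = e x * e y := by
  unfold e
  rw [← Complex.exp_add]
  congr 1
  push_cast
  ring

theorem norm_e (x : ℝ) : ‖e x‖ = 1 := by
  unfold e
  exact Complex.norm_exp_ofReal_mul_I _

theorem e_ne (x : ℝ) : e x ≠ 0 := by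
  intro h
  have := norm_e x
  rw [h, norm_zero] at this
  exact zero_ne_one this

theorem e_conj (x : ℝ) : (starRingEnd ℂ) (e x) = e (-x) := by
  unfold e
  rw [← Complex.exp_conj, map_mul, Complex.conj_ofReal, Complex.conj_I]
  congr 1
  push_cast
  ring

theorem e_neg (x : ℝ) : e (-x) = (e x)⁻¹ := by
  refine eq_inv_of_mul_eq_one_left ?_
  rw [← e_add, neg_add_cancel, e_zero]

theorem e_sub (x y : ℝ) : e (x - y) = e x * (starRingEnd ℂ) (e y) := by
  rw [sub_eq_add_neg, e_add, e_conj]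

theorem e_int (m : ℤ) : e m = 1 := by
  unfold e
  rw [Complex.exp_eq_one_iff]
  refine ⟨m, ?_⟩
  push_cast
  ring

theorem e_nat_mul (m : ℕ) (x : ℝ) : e ((m : ℝ) * x) = e x ^ m := by
  unfold e
  rw [← Complex.exp_nat_mul]
  congr 1
  push_cast
  ring

theorem e_sum {ι : Type*} (s : Finset ι) (f : ι → ℝ) : e (∑ i ∈ s, f i) = ∏ i ∈ s, e (f i) := by
  classical
  induction s using Finset.induction_on with
  | empty => simp [e_zero]
  | insert a s ha ih => rw [sum_insert ha, prod_insert ha, e_add, ih]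

/-- the polynomial phase -/
noncomputable def ph (k : ℕ) (c : ℕ → ℝ) (h : ℕ) : ℝ := ∑ j ∈ Icc 1 k, c j * (h : ℝ) ^ j

/-- the Taylor coefficients -/
noncomputable def cz (t : ℝ) (n j : ℕ) : ℝ := (-1) ^ j * t / (2 * Real.pi * j * (n : ℝ) ^ j)

/-- the weights of the completion -/
noncomputable def lamC (H r : ℕ) : ℝ := if r = 0 then 1 else 1 / (2 * (r : ℝ)) + 1 / (2 * ((H : ℝ) - r))

/-- the Taylor remainder of the logarithm -/
noncomputable def rem (k : ℕ) (x : ℝ) : ℝ :=
  Real.log (1 + x) - ∑ j ∈ Icc 1 k, (-1) ^ (j + 1) * x ^ j / (j : ℝ)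

end Pool.Agent.Lib.ZB
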