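import Pool.Agent.Lib.ZB.Defs

/-!
# ZB / E: lower bound for `‖e v - 1‖` and the geometric sum
-/

set_option autoImplicit false

namespace Pool.Agent.Lib.ZB

open Finset

theorem e_sub_one (v : ℝ) (hv : |v| ≤ 1 / 2) : 4 * |v| ≤ ‖e v - 1‖ := by
  have h1 : e v = Complex.exp (Complex.I * ((2 * Real.pi * v : ℝ) : ℂ)) := by
    unfold e
    rw [mul_comm]
  rw [h1, Complex.norm_exp_I_mul_ofReal_sub_one, Real.norm_eq_abs, abs_mul, abs_of_pos (by norm_num : (0 : ℝ) < 2)]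
  have h2 : 2 * Real.pi * v / 2 = Real.pi * v := by ring
  rw [h2]
  have hpi := Real.pi_pos
  have h3 : |Real.pi * v| ≤ Real.pi / 2 := by
    rw [abs_mul, abs_of_pos hpi]
    have := mul_le_mul_of_nonneg_left hv hpi.le
    linarith
  have h4 := Real.mul_abs_le_abs_sin h3
  have h5 : 2 / Real.pi * |Real.pi * v| = 2 * |v| := by
    rw [abs_mul, abs_of_pos hpi]
    field_simp
  rw [h5] at h4
  linarith

/-- geometric sum: `‖∑_{j<U} e(j v)‖ ‖e v - 1‖ ≤ 2` -/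
theorem geo_mul (U : ℕ) (v : ℝ) : ‖∑ j ∈ range U, e ((j : ℝ) * v)‖ * ‖e v - 1‖ ≤ 2 := by
  have h1 : ∑ j ∈ range U, e ((j : ℝ) * v) = ∑ j ∈ range U, e v ^ j := sum_congr rfl fun j _ => e_nat_mul j v
  rw [h1, ← norm_mul, geom_sum_mul]
  refine (norm_sub_le _ _).trans ?_
  rw [norm_pow, norm_e]
  norm_num

end Pool.Agent.Lib.ZB
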