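import Pool.Agent.Lib.ZB.M

/-!
# ZB / F1 (150 lines): first moment of a block, one twist

PROOF.  `p = k (k+1) ≥ 6`.  Power mean (`Real.inner_le_Lp_mul_Lq` with the constant 1, or `Finset.inner_le_nnorm_mul_nnorm`, or
`inner_le_...`; also `Real.pow_arith_mean_le_arith_mean_pow` / `Finset.sum_div_card_pow`): with `R = M - N ≤ N` terms
`(∑_{n ∈ (N,M]} x n)^p ≤ R^(p-1) ∑ x n^p ≤ N^(p-1) ∑ x n^p` (`inner_mul_le_norm..` is not needed: `inner` = `Finset.pow_sum_le`? the Mathlib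
name is `inner_le_Lp_mul_Lq` or `Real.rpow_sum_le_const_mul_sum_rpow` / `pow_sum_div_card_le_sum_pow`).  So `∑ x n ≤ N^(1-1/p) (C (1 + t/N^k)(1 + log N) H^(p+1+ε'))^(1/p)`
`= N (C (1 + t/N^k) (1 + log N) H^(1+ε')/N)^(1/p) H = C^(1/p) (1+log N)^(1/p) H^(ε'/p) · N H ((1 + t/N^k) H/N)^(1/p)`.
With `H ≤ N`, `H^(ε'/p) ≤ N^(ε')`, `1 + log N ≤ C N^(ε')` (`Real.log_le_rpow_div`), take `ε' = ε/2`.
Finally `H/N ≤ t^(-1/(k+1))` (hypothesis `t H^(k+1) ≤ N^(k+1)`), so `(H/N)^(1/p) ≤ t^(-1/((k+1) p))`, and with `q = k+1`, `p = q (q-1)`: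
`((1 + t/N^k) H/N)^(1/p) ≤ (H/N)^(1/p) + ((t/N^k) H/N)^(1/p) ≤ t^(-1/(q^2 (q-1))) + (t^(1-1/q)/N^(q-1))^(1/(q(q-1))) = t^(-1/(q^2(q-1))) + (t/N^q)^(1/q^2)`
(`Real.rpow_add_le_add_rpow`: `(a+b)^c ≤ a^c + b^c` for `0 ≤ c ≤ 1`).
-/

set_option autoImplicit false

namespace Pool.Agent.Lib.ZB

open Finset

private theorem f1_alg (k : ℕ) (hk : 2 ≤ k) (N H t : ℝ) (hN : 1 ≤ N) (ht : 1 ≤ t)
    (h1 : t * H ^ (k + 1) ≤ N ^ (k + 1)) :
    (1 + t / N ^ k) * (H / N) ≤ (t ^ (-(1 / (((k : ℝ) + 1) ^ 2 * k))) +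
      (t / N ^ (k + 1)) ^ (1 / ((k : ℝ) + 1) ^ 2)) ^ (k * (k + 1)) := by
  have hk0 : (0 : ℝ) < k := by
    have : 0 < k := by omega
    exact_mod_cast this
  have hN0 : 0 < N := by linarith
  have ht0 : 0 < t := by linarith
  have hk1 : (0 : ℝ) < (k : ℝ) + 1 := by linarith
  have hA0 : 0 ≤ t ^ (-(1 / (((k : ℝ) + 1) ^ 2 * k))) := by positivity
  have hB0 : 0 ≤ (t / N ^ (k + 1)) ^ (1 / ((k : ℝ) + 1) ^ 2) := by positivity
  have hp0 : k * (k + 1) ≠ 0 := by positivity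
  refine le_trans ?_ (pow_add_pow_le hA0 hB0 hp0)
  have hcast : ((k * (k + 1) : ℕ) : ℝ) = (k : ℝ) * ((k : ℝ) + 1) := by push_cast; ring
  have hA : (t ^ (-(1 / (((k : ℝ) + 1) ^ 2 * k)))) ^ (k * (k + 1)) = t ^ (-(1 / ((k : ℝ) + 1))) := by
    rw [← Real.rpow_natCast, ← Real.rpow_mul ht0.le, hcast]
    congr 1
    field_simp
  have hB : ((t / N ^ (k + 1)) ^ (1 / ((k : ℝ) + 1) ^ 2)) ^ (k * (k + 1)) =
      (t / N ^ (k + 1)) ^ ((k : ℝ) / ((k : ℝ) + 1)) := by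
    rw [← Real.rpow_natCast, ← Real.rpow_mul (by positivity), hcast]
    congr 1
    field_simp
  rw [hA, hB]
  -- `H / N ≤ t ^ (-1/(k+1))`
  have h2 : H / N ≤ t ^ (-(1 / ((k : ℝ) + 1))) := by
    have h3 : (H / N) ^ (k + 1) ≤ (t ^ (-(1 / ((k : ℝ) + 1)))) ^ (k + 1) := by
      have h4 : (t ^ (-(1 / ((k : ℝ) + 1)))) ^ (k + 1) = t⁻¹ := by
        rw [← Real.rpow_natCast, ← Real.rpow_mul ht0.le]
        have : -(1 / ((k : ℝ) + 1)) * ((k + 1 : ℕ) : ℝ) = -1 := by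
          push_cast
          field_simp
        rw [this, Real.rpow_neg_one]
      rw [h4, div_pow, div_le_iff₀ (by positivity), inv_mul_eq_div, le_div_iff₀ ht0]
      linarith
    exact le_of_pow_le_pow_left₀ (by omega) (by positivity) h3
  have h5 : t / N ^ k * (H / N) ≤ (t / N ^ (k + 1)) ^ ((k : ℝ) / ((k : ℝ) + 1)) := by
    have h6 : (t / N ^ (k + 1)) ^ ((k : ℝ) / ((k : ℝ) + 1)) = t / N ^ k * t ^ (-(1 / ((k : ℝ) + 1))) := by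
      rw [Real.div_rpow ht0.le (by positivity), ← Real.rpow_natCast N (k + 1), ← Real.rpow_mul hN0.le]
      have e1 : ((k + 1 : ℕ) : ℝ) * ((k : ℝ) / ((k : ℝ) + 1)) = (k : ℝ) := by
        push_cast
        field_simp
      rw [e1, Real.rpow_natCast]
      have e2 : (k : ℝ) / ((k : ℝ) + 1) = 1 + -(1 / ((k : ℝ) + 1)) := by
        field_simp
        ring
      rw [e2, Real.rpow_add ht0, Real.rpow_one]
      ring
    rw [h6]
    exact mul_le_mul_of_nonneg_left h2 (by positivity)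
  calc (1 + t / N ^ k) * (H / N) = H / N + t / N ^ k * (H / N) := by ring
    _ ≤ _ := add_le_add h2 h5

theorem firstT (hV : VMV) (k : ℕ) (hk : 2 ≤ k) {ε : ℝ} (hε : 0 < ε) : ∃ C : ℝ, 0 ≤ C ∧
    ∀ (N M H : ℕ) (t : ℝ), 1 ≤ N → M ≤ 2 * N → 1 ≤ t → 1 ≤ H → t * (H : ℝ) ^ (k + 1) ≤ (N : ℝ) ^ (k + 1) →
      (N : ℝ) ^ (k + 1) ≤ t * (2 * (H : ℝ)) ^ (k + 1) → ∀ w : ℕ → ℂ, (∀ h, ‖w h‖ ≤ 1) →
      ∑ n ∈ Ioc N M, ‖∑ h ∈ range H, w h * e (ph k (cz t n) h)‖ ≤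
        C * (H : ℝ) * (N : ℝ) ^ (1 + ε) *
          (t ^ (-(1 / (((k : ℝ) + 1) ^ 2 * k))) + (t / (N : ℝ) ^ (k + 1)) ^ (1 / ((k : ℝ) + 1) ^ 2)) := by
  obtain ⟨C0, hC0, hC⟩ := momentT hV k hk hε
  refine ⟨1 + C0 * (1 + 1 / ε), by positivity, fun N M H t hN hM ht hH hlo hhi w hw => ?_⟩
  set p : ℕ := k * (k + 1) with hp
  have hp6 : 6 ≤ p := by
    have : 2 * 3 ≤ k * (k + 1) := Nat.mul_le_mul hk (by omega)
    omega
  have hN1 : (1 : ℝ) ≤ N := by exact_mod_cast hN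
  have hN0 : (0 : ℝ) < N := by linarith
  have hH1 : (1 : ℝ) ≤ H := by exact_mod_cast hH
  have hH0 : (0 : ℝ) < H := by linarith
  have ht0 : 0 < t := by linarith
  set Z : ℝ := t ^ (-(1 / (((k : ℝ) + 1) ^ 2 * k))) + (t / (N : ℝ) ^ (k + 1)) ^ (1 / ((k : ℝ) + 1) ^ 2) with hZ
  have hZ0 : 0 ≤ Z := by positivity
  have hm := hC N M H t hN hM ht hH hhi w hw
  have halg := f1_alg k hk N H t hN1 ht hlo
  rw [← hZ, ← hp] at halg
  set x : ℕ → ℝ := fun n => ‖∑ h ∈ range H, w h * e (ph k (cz t n) h)‖ with hx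
  have hx0 : ∀ n ∈ Ioc N M, 0 ≤ x n := fun n _ => norm_nonneg _
  -- `H ≤ N`
  have hHN : (H : ℝ) ≤ N := by
    have h1 : (H : ℝ) ^ (k + 1) ≤ (N : ℝ) ^ (k + 1) := by
      refine le_trans ?_ hlo
      exact le_mul_of_one_le_left (by positivity) ht
    exact le_of_pow_le_pow_left₀ (by omega) hN0.le h1
  -- power mean
  have hcard : ((Ioc N M).card : ℝ) ≤ N := by
    rw [Nat.card_Ioc]
    have : M - N ≤ N := by omega
    exact_mod_cast this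
  have hpm : (∑ n ∈ Ioc N M, x n) ^ p ≤ (N : ℝ) ^ (p - 1) * ∑ n ∈ Ioc N M, x n ^ p := by
    have h1 := pow_sum_div_card_le_sum_pow (s := Ioc N M) (f := x) hx0 (p - 1)
    have h2 : p - 1 + 1 = p := by omega
    rw [h2] at h1
    rcases Nat.eq_zero_or_pos (Ioc N M).card with h0 | h0
    · have he : Ioc N M = ∅ := card_eq_zero.mp h0
      rw [he, sum_empty, sum_empty, zero_pow (by omega)]
      positivity
    · have h3 : (0 : ℝ) < ((Ioc N M).card : ℝ) ^ (p - 1) := by positivity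
      rw [div_le_iff₀ h3] at h1
      refine h1.trans ?_
      rw [mul_comm]
      refine mul_le_mul_of_nonneg_right ?_ (sum_nonneg fun n hn => pow_nonneg (hx0 n hn) _)
      exact pow_le_pow_left₀ (by positivity) hcard _
  -- the logarithm
  have hlog : 1 + Real.log N ≤ (1 + 1 / ε) * (N : ℝ) ^ ε := by
    have h1 := Real.log_le_rpow_div hN0.le hε
    have h2 : (1 : ℝ) ≤ (N : ℝ) ^ ε := Real.one_le_rpow hN1 hε.le
    calc 1 + Real.log N ≤ (N : ℝ) ^ ε + (N : ℝ) ^ ε / ε := add_le_add h2 h1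
      _ = _ := by ring
  have hlog0 : 0 ≤ Real.log N := Real.log_nonneg hN1
  have hHp : (H : ℝ) ^ (((p : ℕ) : ℝ) + 1 + ε) = (H : ℝ) ^ p * H * (H : ℝ) ^ ε := by
    rw [Real.rpow_add hH0, Real.rpow_add hH0, Real.rpow_natCast, Real.rpow_one]
  have hHe : (H : ℝ) ^ ε ≤ (N : ℝ) ^ ε := Real.rpow_le_rpow hH0.le hHN hε.le
  have hNp : (N : ℝ) ^ (p - 1) = (N : ℝ) ^ p / N := by
    rw [eq_div_iff (by positivity), ← pow_succ]
    congr 1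
    omega
  set C : ℝ := 1 + C0 * (1 + 1 / ε) with hCdef
  have hC1 : 1 ≤ C := by
    have : 0 ≤ C0 * (1 + 1 / ε) := by positivity
    linarith
  have hfin : (∑ n ∈ Ioc N M, x n) ^ p ≤ (C * (H : ℝ) * (N : ℝ) ^ (1 + ε) * Z) ^ p := by
    calc (∑ n ∈ Ioc N M, x n) ^ p ≤ (N : ℝ) ^ (p - 1) * ∑ n ∈ Ioc N M, x n ^ p := hpm
      _ ≤ (N : ℝ) ^ (p - 1) * (C0 * (1 + t / (N : ℝ) ^ k) * (1 + Real.log N) *
          (H : ℝ) ^ (((p : ℕ) : ℝ) + 1 + ε)) := mul_le_mul_of_nonneg_left hm (by positivity)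
      _ = (C0 * (1 + Real.log N) * (H : ℝ) ^ ε) * ((N : ℝ) ^ p * (H : ℝ) ^ p) *
          ((1 + t / (N : ℝ) ^ k) * (H / N)) := by
        rw [hHp, hNp]
        field_simp
      _ ≤ (C0 * ((1 + 1 / ε) * (N : ℝ) ^ ε) * (N : ℝ) ^ ε) * ((N : ℝ) ^ p * (H : ℝ) ^ p) * Z ^ p := by
        gcongr
      _ ≤ (C ^ p * ((N : ℝ) ^ ε) ^ p) * ((N : ℝ) ^ p * (H : ℝ) ^ p) * Z ^ p := by
        have h1 : C0 * ((1 + 1 / ε) * (N : ℝ) ^ ε) * (N : ℝ) ^ ε ≤ C ^ p * ((N : ℝ) ^ ε) ^ p := by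
          have h2 : (1 : ℝ) ≤ (N : ℝ) ^ ε := Real.one_le_rpow hN1 hε.le
          have h3 : ((N : ℝ) ^ ε) ^ 2 ≤ ((N : ℝ) ^ ε) ^ p := pow_le_pow_right₀ h2 (by omega)
          have h4 : C ^ 1 ≤ C ^ p := pow_le_pow_right₀ hC1 (by omega)
          rw [pow_one] at h4
          calc C0 * ((1 + 1 / ε) * (N : ℝ) ^ ε) * (N : ℝ) ^ ε = (C0 * (1 + 1 / ε)) * ((N : ℝ) ^ ε) ^ 2 := by ring
            _ ≤ C * ((N : ℝ) ^ ε) ^ 2 := by
              refine mul_le_mul_of_nonneg_right ?_ (by positivity)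
              rw [hCdef]
              linarith
            _ ≤ C ^ p * ((N : ℝ) ^ ε) ^ p := mul_le_mul h4 h3 (by positivity) (by positivity)
        gcongr
      _ = (C * (H : ℝ) * (N : ℝ) ^ (1 + ε) * Z) ^ p := by
        rw [Real.rpow_add hN0, Real.rpow_one]
        simp only [mul_pow]
        ring
  exact le_of_pow_le_pow_left₀ (by omega) (by positivity) hfin

end Pool.Agent.Lib.ZB
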