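import Pool.Agent.Lib.ZB.A
import Pool.Agent.Lib.ZB.C
import Pool.Agent.Lib.ZB.F1
import Pool.Agent.Lib.ZB.T2

/-!
# ZB / F2 (180 lines): zeta blocks from Vinogradov's mean value theorem

PROOF.  `k = q - 1 ≥ 2`.  If `N^q < t` then `(t/N^q)^(1/q^2) ≥ 1` and the trivial bound `M - N ≤ N` is enough (`C ≥ 1`).  Let `t ≤ N^q`,
`H = ⌊N t^(-1/q)⌋₊ ≥ 1`, `H ≤ N` (`t ≥ N ≥ 1`): `t H^q ≤ N^q` and `N^q ≤ t (H+1)^q ≤ t (2H)^q`.  `f n = n^(-it)`, `‖f n‖ ≤ 1` (for `n = 0`: `0^(-it) = 0`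
because `t ≠ 0`).  `shiftAv`: `‖∑‖ ≤ (1/H) ∑_n ‖∑_{h<H} f(n+h)‖ + H`.  For `n ∈ (N, M]`: `t H^q ≤ n^q`, `blockT` with
`B = ∑_{r<H} lamC H r ‖∑_{h<H} e(ph k (cz t n) h) e(h r/H)‖` (`complH` with `a h = e(ph ..)`), so
`‖∑‖ ≤ (2/H) ∑_{r<H} lamC H r ∑_n ‖∑_{h<H} w_r h e(ph k (cz t n) h)‖ + H`, `w_r h = e(h r/H)`, and `firstT` (with `ε/2`) for every `r`, `lamC_sum`:
`≤ 2 (2 + log H) C N^(1+ε/2) (...) + H`; `2 + log H ≤ C N^(ε/2)`, `H ≤ N t^(-1/q) ≤ N t^(-1/(q^2(q-1)))`.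
-/

set_option autoImplicit false

namespace Pool.Agent.Lib.ZB

open Finset

private theorem f2_norm (t : ℝ) (n : ℕ) : ‖(n : ℂ) ^ (-((t : ℂ) * Complex.I))‖ ≤ 1 := by
  rcases Nat.eq_zero_or_pos n with h | h
  · subst h
    by_cases h0 : -((t : ℂ) * Complex.I) = 0
    · rw [h0]
      simp
    · rw [Nat.cast_zero, Complex.zero_cpow h0]
      simp
  · rw [Complex.norm_natCast_cpow_of_pos h]
    simp

private theorem f2_H (k N : ℕ) (hN : 1 ≤ N) (t : ℝ) (ht : 1 ≤ t) (htN : t ≤ (N : ℝ) ^ (k + 1)) :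
    ∃ H : ℕ, 1 ≤ H ∧ t * (H : ℝ) ^ (k + 1) ≤ (N : ℝ) ^ (k + 1) ∧
      (N : ℝ) ^ (k + 1) ≤ t * (2 * (H : ℝ)) ^ (k + 1) ∧ (H : ℝ) ≤ (N : ℝ) * t ^ (-(1 / ((k : ℝ) + 1))) := by
  have ht0 : (0 : ℝ) < t := by linarith
  have hN0 : (0 : ℝ) < N := by exact_mod_cast hN
  have hk0 : (0 : ℝ) < (k : ℝ) + 1 := by positivity
  set X : ℝ := (N : ℝ) * t ^ (-(1 / ((k : ℝ) + 1))) with hX
  have hX0 : 0 < X := by positivity
  have hpow : (t ^ (-(1 / ((k : ℝ) + 1)))) ^ (k + 1) = t⁻¹ := by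
    rw [← Real.rpow_natCast, ← Real.rpow_mul ht0.le]
    have : -(1 / ((k : ℝ) + 1)) * ((k + 1 : ℕ) : ℝ) = -1 := by
      push_cast
      field_simp
    rw [this, Real.rpow_neg_one]
  have hXp : t * X ^ (k + 1) = (N : ℝ) ^ (k + 1) := by
    rw [hX, mul_pow, hpow]
    field_simp
  have hX1 : 1 ≤ X := by
    by_contra hlt
    push Not at hlt
    have h1 : X ^ (k + 1) < 1 := pow_lt_one₀ hX0.le hlt (by omega)
    have h2 : t * X ^ (k + 1) < t := by nlinarith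
    rw [hXp] at h2
    linarith
  have hf1 : ((⌊X⌋₊ : ℕ) : ℝ) ≤ X := Nat.floor_le hX0.le
  have hf2 : X < (⌊X⌋₊ : ℝ) + 1 := Nat.lt_floor_add_one X
  have hf3 : 1 ≤ ⌊X⌋₊ := by
    rw [Nat.one_le_floor_iff]
    exact hX1
  have hf4 : (1 : ℝ) ≤ (⌊X⌋₊ : ℝ) := by exact_mod_cast hf3
  refine ⟨⌊X⌋₊, hf3, ?_, ?_, hf1⟩
  · rw [← hXp]
    have : ((⌊X⌋₊ : ℕ) : ℝ) ^ (k + 1) ≤ X ^ (k + 1) := pow_le_pow_left₀ (by linarith) hf1 _
    exact mul_le_mul_of_nonneg_left this ht0.le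
  · rw [← hXp]
    have : X ^ (k + 1) ≤ (2 * (⌊X⌋₊ : ℝ)) ^ (k + 1) := pow_le_pow_left₀ hX0.le (by linarith) _
    exact mul_le_mul_of_nonneg_left this ht0.le

private theorem f2_main (hV : VMV) (k : ℕ) (hk : 2 ≤ k) {ε : ℝ} (hε : 0 < ε) : ∃ C : ℝ, 0 ≤ C ∧ ∀ (N M : ℕ), 1 ≤ N →
    N ≤ M → M ≤ 2 * N → ∀ t : ℝ, (N : ℝ) ≤ t →
    ‖∑ n ∈ Finset.Ioc N M, (n : ℂ) ^ (-((t : ℂ) * Complex.I))‖ ≤ C * (N : ℝ) ^ (1 + ε) *
      (t ^ (-(1 / (((k : ℝ) + 1) ^ 2 * k))) + (t / (N : ℝ) ^ (k + 1)) ^ (1 / ((k : ℝ) + 1) ^ 2)) := by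
  obtain ⟨C1, hC1, h1⟩ := firstT hV k hk (half_pos hε)
  refine ⟨2 * (2 + 2 / ε) * C1 + 1, by positivity, fun N M hN hNM hM t htN => ?_⟩
  have hN1 : (1 : ℝ) ≤ N := by exact_mod_cast hN
  have hN0 : (0 : ℝ) < N := by linarith
  have ht1 : 1 ≤ t := le_trans hN1 htN
  have ht0 : 0 < t := by linarith
  have hk0 : (0 : ℝ) < k := by
    have : 0 < k := by omega
    exact_mod_cast this
  have hk2 : (2 : ℝ) ≤ k := by exact_mod_cast hk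
  set A : ℝ := t ^ (-(1 / (((k : ℝ) + 1) ^ 2 * k))) with hA
  set B : ℝ := (t / (N : ℝ) ^ (k + 1)) ^ (1 / ((k : ℝ) + 1) ^ 2) with hB
  have hA0 : 0 < A := by positivity
  have hB0 : 0 < B := by positivity
  have hNe : (N : ℝ) ≤ (N : ℝ) ^ (1 + ε) := by
    calc (N : ℝ) = (N : ℝ) ^ (1 : ℝ) := (Real.rpow_one _).symm
      _ ≤ (N : ℝ) ^ (1 + ε) := Real.rpow_le_rpow_of_exponent_le hN1 (by linarith)
  have hNe0 : 0 < (N : ℝ) ^ (1 + ε) := by positivity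
  set C2 : ℝ := 2 * (2 + 2 / ε) * C1 with hC2
  have hC20 : 0 ≤ C2 := by positivity
  rcases lt_or_ge ((N : ℝ) ^ (k + 1)) t with hbig | hsmall
  · have hB1 : 1 ≤ B := by
      rw [hB]
      refine Real.one_le_rpow ?_ (by positivity)
      rw [le_div_iff₀ (by positivity)]
      linarith
    calc ‖∑ n ∈ Finset.Ioc N M, (n : ℂ) ^ (-((t : ℂ) * Complex.I))‖
        ≤ ∑ n ∈ Finset.Ioc N M, ‖(n : ℂ) ^ (-((t : ℂ) * Complex.I))‖ := norm_sum_le _ _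
      _ ≤ ∑ n ∈ Finset.Ioc N M, (1 : ℝ) := Finset.sum_le_sum fun n _ => f2_norm t n
      _ = ((M - N : ℕ) : ℝ) := by simp
      _ ≤ (N : ℝ) := by exact_mod_cast (by omega : M - N ≤ N)
      _ ≤ (N : ℝ) ^ (1 + ε) := hNe
      _ ≤ (C2 + 1) * (N : ℝ) ^ (1 + ε) * (A + B) := by
        have h2 : 1 ≤ (C2 + 1) * (A + B) := by nlinarith
        nlinarith
  · obtain ⟨H, hH1, hHlo, hHhi, hHle⟩ := f2_H k N hN t ht1 hsmall
    have hH1r : (1 : ℝ) ≤ H := by exact_mod_cast hH1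
    have hH0 : (0 : ℝ) < H := by linarith
    have hHN : (H : ℝ) ≤ N := by
      refine hHle.trans ?_
      have : t ^ (-(1 / ((k : ℝ) + 1))) ≤ 1 := by
        refine Real.rpow_le_one_of_one_le_of_nonpos ht1 ?_
        have : 0 < 1 / ((k : ℝ) + 1) := by positivity
        linarith
      nlinarith
    have hHA : (H : ℝ) ≤ N * A := by
      refine hHle.trans ?_
      refine mul_le_mul_of_nonneg_left ?_ hN0.le
      rw [hA]
      refine Real.rpow_le_rpow_of_exponent_le ht1 ?_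
      rw [neg_le_neg_iff]
      refine one_div_le_one_div_of_le (by positivity) ?_
      nlinarith
    have hS := shiftAv (fun n : ℕ => (n : ℂ) ^ (-((t : ℂ) * Complex.I))) (fun n => f2_norm t n) N M H hH1 hNM
    have hblk : ∀ n ∈ Ioc N M, ‖∑ h ∈ range H, ((n + h : ℕ) : ℂ) ^ (-((t : ℂ) * Complex.I))‖ ≤
        2 * ∑ r ∈ range H, lamC H r * ‖∑ h ∈ range H, e ((h : ℝ) * r / H) * e (ph k (cz t n) h)‖ := by
      intro n hn
      rw [mem_Ioc] at hn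
      have hnN : (N : ℝ) ≤ n := by exact_mod_cast hn.1.le
      refine blockT k t ht0.le n H (by omega) ?_ _ ?_
      · exact hHlo.trans (pow_le_pow_left₀ hN0.le hnN _)
      · intro H' hH'
        refine (complH H (fun h => e (ph k (cz t n) h)) H' hH').trans (le_of_eq ?_)
        refine sum_congr rfl fun r _ => ?_
        congr 2
        exact sum_congr rfl fun h _ => mul_comm _ _
    have hfirst : ∀ r ∈ range H, ∑ n ∈ Ioc N M, ‖∑ h ∈ range H, e ((h : ℝ) * r / H) * e (ph k (cz t n) h)‖ ≤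
        C1 * (H : ℝ) * (N : ℝ) ^ (1 + ε / 2) * (A + B) := by
      intro r _
      exact h1 N M H t hN hM ht1 hH1 hHlo hHhi (fun h => e ((h : ℝ) * r / H)) (fun h => (norm_e _).le)
    have hsum : ∑ n ∈ Ioc N M, ‖∑ h ∈ range H, ((n + h : ℕ) : ℂ) ^ (-((t : ℂ) * Complex.I))‖ ≤
        2 * ((2 + Real.log H) * (C1 * (H : ℝ) * (N : ℝ) ^ (1 + ε / 2) * (A + B))) := by
      calc ∑ n ∈ Ioc N M, ‖∑ h ∈ range H, ((n + h : ℕ) : ℂ) ^ (-((t : ℂ) * Complex.I))‖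
          ≤ ∑ n ∈ Ioc N M, 2 * ∑ r ∈ range H, lamC H r *
              ‖∑ h ∈ range H, e ((h : ℝ) * r / H) * e (ph k (cz t n) h)‖ := Finset.sum_le_sum hblk
        _ = 2 * ∑ r ∈ range H, lamC H r *
              ∑ n ∈ Ioc N M, ‖∑ h ∈ range H, e ((h : ℝ) * r / H) * e (ph k (cz t n) h)‖ := by
            rw [← mul_sum, sum_comm]
            simp_rw [mul_sum]
        _ ≤ 2 * ∑ r ∈ range H, lamC H r * (C1 * (H : ℝ) * (N : ℝ) ^ (1 + ε / 2) * (A + B)) := by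
            refine mul_le_mul_of_nonneg_left ?_ (by norm_num)
            refine Finset.sum_le_sum fun r hr => ?_
            exact mul_le_mul_of_nonneg_left (hfirst r hr) (lamC_nonneg H r (mem_range.1 hr))
        _ = 2 * ((∑ r ∈ range H, lamC H r) * (C1 * (H : ℝ) * (N : ℝ) ^ (1 + ε / 2) * (A + B))) := by
            rw [sum_mul]
        _ ≤ 2 * ((2 + Real.log H) * (C1 * (H : ℝ) * (N : ℝ) ^ (1 + ε / 2) * (A + B))) := by
            refine mul_le_mul_of_nonneg_left ?_ (by norm_num)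
            exact mul_le_mul_of_nonneg_right (lamC_sum H hH1) (by positivity)
    have hlog : 2 + Real.log H ≤ (2 + 2 / ε) * (N : ℝ) ^ (ε / 2) := by
      have h3 : Real.log H ≤ Real.log N := Real.log_le_log hH0 hHN
      have h4 : Real.log N ≤ (N : ℝ) ^ (ε / 2) / (ε / 2) := Real.log_le_rpow_div hN0.le (half_pos hε)
      have h5 : (1 : ℝ) ≤ (N : ℝ) ^ (ε / 2) := Real.one_le_rpow hN1 (by positivity)
      have h6 : (N : ℝ) ^ (ε / 2) / (ε / 2) = 2 / ε * (N : ℝ) ^ (ε / 2) := by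
        field_simp
      rw [h6] at h4
      nlinarith
    have hexp : (N : ℝ) ^ (ε / 2) * (N : ℝ) ^ (1 + ε / 2) = (N : ℝ) ^ (1 + ε) := by
      rw [← Real.rpow_add hN0]
      congr 1
      ring
    have hfin : 1 / (H : ℝ) * ∑ n ∈ Ioc N M, ‖∑ h ∈ range H, ((n + h : ℕ) : ℂ) ^ (-((t : ℂ) * Complex.I))‖ ≤
        C2 * (N : ℝ) ^ (1 + ε) * (A + B) := by
      calc 1 / (H : ℝ) * ∑ n ∈ Ioc N M, ‖∑ h ∈ range H, ((n + h : ℕ) : ℂ) ^ (-((t : ℂ) * Complex.I))‖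
          ≤ 1 / (H : ℝ) * (2 * ((2 + Real.log H) * (C1 * (H : ℝ) * (N : ℝ) ^ (1 + ε / 2) * (A + B)))) :=
            mul_le_mul_of_nonneg_left hsum (by positivity)
        _ = 2 * (2 + Real.log H) * (C1 * (N : ℝ) ^ (1 + ε / 2) * (A + B)) := by
            field_simp
        _ ≤ 2 * ((2 + 2 / ε) * (N : ℝ) ^ (ε / 2)) * (C1 * (N : ℝ) ^ (1 + ε / 2) * (A + B)) := by
            refine mul_le_mul_of_nonneg_right ?_ (by positivity)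
            linarith
        _ = C2 * ((N : ℝ) ^ (ε / 2) * (N : ℝ) ^ (1 + ε / 2)) * (A + B) := by
            rw [hC2]
            ring
        _ = C2 * (N : ℝ) ^ (1 + ε) * (A + B) := by rw [hexp]
    calc ‖∑ n ∈ Finset.Ioc N M, (n : ℂ) ^ (-((t : ℂ) * Complex.I))‖
        ≤ 1 / (H : ℝ) * ∑ n ∈ Ioc N M, ‖∑ h ∈ range H, ((n + h : ℕ) : ℂ) ^ (-((t : ℂ) * Complex.I))‖ + H := hS
      _ ≤ C2 * (N : ℝ) ^ (1 + ε) * (A + B) + (N : ℝ) ^ (1 + ε) * (A + B) := by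
          refine add_le_add hfin (hHA.trans ?_)
          have h7 : (N : ℝ) * A ≤ (N : ℝ) ^ (1 + ε) * A := mul_le_mul_of_nonneg_right hNe hA0.le
          have h8 : 0 ≤ (N : ℝ) ^ (1 + ε) * B := by positivity
          nlinarith
      _ = (C2 + 1) * (N : ℝ) ^ (1 + ε) * (A + B) := by ring

theorem zblkV (hV : VMV) (q : ℕ) (hq : 3 ≤ q) {ε : ℝ} (hε : 0 < ε) : ∃ C : ℝ, 0 ≤ C ∧ ∀ (N M : ℕ), 1 ≤ N →
    N ≤ M → M ≤ 2 * N → ∀ t : ℝ, (N : ℝ) ≤ t →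
    ‖∑ n ∈ Finset.Ioc N M, (n : ℂ) ^ (-((t : ℂ) * Complex.I))‖ ≤ C * (N : ℝ) ^ (1 + ε) *
      (t ^ (-(1 / ((q : ℝ) ^ 2 * (q - 1)))) + (t / (N : ℝ) ^ q) ^ (1 / (q : ℝ) ^ 2)) := by
  obtain ⟨k, rfl⟩ : ∃ k, q = k + 1 := ⟨q - 1, by omega⟩
  have h := f2_main hV k (by omega) hε
  have h1 : ((k + 1 : ℕ) : ℝ) = (k : ℝ) + 1 := by push_cast; ring
  rw [h1]
  have h2 : (k : ℝ) + 1 - 1 = k := by ring
  rw [h2]
  exact h

end Pool.Agent.Lib.ZB
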