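import Pool.Agent.Lib.ZB.K1

/-!
# ZB / K2 (200 lines): the kernel summed over a spaced sequence

PROOF.  `w n = z n - al`, `m n = round (w n)`, `|w n - m n| ≤ 1/2` (`abs_sub_round`).  Group the `n ∈ (N, M]` by `m n`.
(1) Number of values of `m n`: if `n0 = N+1` and `n1 = M` are the ends, all `m n` are in the integer interval `[m n0, m n1]` (`z` is increasing by `hgap`,
`round` is monotone: `round x = ⌊x + 1/2⌋`), and `m n1 - m n0 ≤ w n1 - w n0 + 1 ≤ W + 1`, so there are `≤ W + 2` values.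
(2) One class `A = {n ∈ (N, M] : m n = m}`, `K n = ‖∑_{j<U} e(j w n)‖`: `K n ≤ U` and `K n · 2 |w n - m| ≤ 1`.  The `n ∈ A` with `w n ≥ m`: let `p` be the
least one; then for `n = p`: `K ≤ U`; for `n > p`: `w n - m ≥ w n - w p ≥ lam (n - p)`, so `K n ≤ 1/(2 lam (n-p))`; the differences `n - p` are distinct and in
`[1, M]`, so the sum is `≤ U + (1/(2 lam)) ∑_{r=1}^{M} 1/r ≤ U + (1 + log M)/(2 lam)` (`harmonic_le_one_add_log`).  The `n ∈ A` with `w n < m`: let `p` be the greatest
one, symmetric.  Together `≤ 2U + (1 + log M)/lam`.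
Empty interval: the right side is `≥ 0`.
-/

set_option autoImplicit false

namespace Pool.Agent.Lib.ZB

open Finset

private theorem k2_harm (M : ℕ) : ∑ r ∈ Icc 1 M, (1 : ℝ) / r ≤ 1 + Real.log M := by
  have h := harmonic_le_one_add_log M
  rw [harmonic_eq_sum_Icc] at h
  push_cast at h
  simpa only [one_div] using h

/-- a sum of numbers `≤ 1/(2 lam g)`, `g` distinct positive integers, and one more term -/
private theorem k2_sum (A : Finset ℕ) (K : ℕ → ℝ) (U lam : ℝ) (M p : ℕ) (g : ℕ → ℕ) (hlam : 0 < lam) (hp : p ∈ A) (hU : K p ≤ U)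
    (hinj : Set.InjOn g (A.erase p : Finset ℕ))
    (hg : ∀ n ∈ A.erase p, 1 ≤ g n ∧ g n ≤ M ∧ K n * (2 * (lam * g n)) ≤ 1) :
    ∑ n ∈ A, K n ≤ U + (1 + Real.log M) / (2 * lam) := by
  classical
  have h1 : ∑ n ∈ A.erase p, K n ≤ ∑ n ∈ A.erase p, 1 / (2 * lam) * ((1 : ℝ) / (g n : ℕ)) := by
    refine sum_le_sum fun n hn => ?_
    obtain ⟨h2, -, h3⟩ := hg n hn
    have h4 : (0 : ℝ) < g n := by exact_mod_cast h2
    rw [div_mul_div_comm, one_mul, le_div_iff₀ (by positivity)]
    rw [mul_assoc 2 lam]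
    exact h3
  have h2 : ∑ n ∈ A.erase p, (1 : ℝ) / (g n : ℕ) ≤ 1 + Real.log M := by
    rw [← sum_image (f := fun r : ℕ => (1 : ℝ) / r) hinj]
    refine le_trans (sum_le_sum_of_subset_of_nonneg ?_ fun _ _ _ => by positivity) (k2_harm M)
    intro r hr
    rw [mem_image] at hr
    obtain ⟨n, hn, rfl⟩ := hr
    obtain ⟨h3, h4, -⟩ := hg n hn
    exact mem_Icc.2 ⟨h3, h4⟩
  rw [← mul_sum] at h1
  have h3 : 1 / (2 * lam) * ∑ n ∈ A.erase p, (1 : ℝ) / (g n : ℕ) ≤ 1 / (2 * lam) * (1 + Real.log M) :=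
    mul_le_mul_of_nonneg_left h2 (by positivity)
  rw [← add_sum_erase A K hp]
  have h4 : 1 / (2 * lam) * (1 + Real.log M) = (1 + Real.log M) / (2 * lam) := by ring
  linarith

theorem spacedK (N M U : ℕ) (z : ℕ → ℝ) (lam W al : ℝ) (hlam : 0 < lam) (hW : 0 ≤ W)
    (hgap : ∀ n n' : ℕ, N < n → n < n' → n' ≤ M → lam * ((n' : ℝ) - n) ≤ z n' - z n)
    (hr : ∀ n n' : ℕ, N < n → n < n' → n' ≤ M → z n' - z n ≤ W) :
    ∑ n ∈ Ioc N M, ‖∑ j ∈ range U, e ((j : ℝ) * (z n - al))‖ ≤
      (W + 2) * (2 * U + (1 + Real.log M) / lam) := by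
  classical
  have hlogM : 0 ≤ Real.log M := Real.log_natCast_nonneg M
  obtain ⟨K, hK⟩ : ∃ K : ℕ → ℝ, K = fun n => ‖∑ j ∈ range U, e ((j : ℝ) * (z n - al))‖ := ⟨_, rfl⟩
  have hKU : ∀ n, K n ≤ U := by
    intro n
    rw [hK]
    exact ker_le U _
  have hKm : ∀ n, K n * (2 * |z n - al - round (z n - al)|) ≤ 1 := by
    intro n
    rw [hK]
    exact ker_mul U _ _ (abs_sub_round _)
  have hmono : ∀ n n' : ℕ, N < n → n ≤ n' → n' ≤ M → lam * ((n' : ℝ) - n) ≤ (z n' - al) - (z n - al) := by
    intro n n' h1 h2 h3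
    rcases h2.lt_or_eq with h4 | h4
    · have := hgap n n' h1 h4 h3
      linarith
    · rw [h4]
      simp
  have hmono' : ∀ n n' : ℕ, N < n → n ≤ n' → n' ≤ M → z n - al ≤ z n' - al := by
    intro n n' h1 h2 h3
    have h4 := hmono n n' h1 h2 h3
    have h5 : (0 : ℝ) ≤ (n' : ℝ) - n := by
      have : (n : ℝ) ≤ n' := by exact_mod_cast h2
      linarith
    have h6 := mul_nonneg hlam.le h5
    linarith
  -- one class
  have hclass : ∀ m : ℤ, ∑ n ∈ (Ioc N M).filter (fun n => round (z n - al) = m), K n ≤ 2 * U + (1 + Real.log M) / lam := by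
    intro m
    have h0 : 0 ≤ U + (1 + Real.log M) / (2 * lam) := by positivity
    have hP : ∑ n ∈ ((Ioc N M).filter (fun n => round (z n - al) = m)).filter (fun n => (m : ℝ) ≤ z n - al), K n ≤
        U + (1 + Real.log M) / (2 * lam) := by
      obtain ⟨A, hA⟩ : ∃ A : Finset ℕ, A = ((Ioc N M).filter (fun n => round (z n - al) = m)).filter (fun n => (m : ℝ) ≤ z n - al) :=
        ⟨_, rfl⟩
      rw [← hA]
      rcases A.eq_empty_or_nonempty with hAe | hAne
      · rw [hAe, sum_empty]
        exact h0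
      have hmem : ∀ n ∈ A, N < n ∧ n ≤ M ∧ round (z n - al) = m ∧ (m : ℝ) ≤ z n - al := by
        intro n hn
        rw [hA, mem_filter, mem_filter, mem_Ioc] at hn
        exact ⟨hn.1.1.1, hn.1.1.2, hn.1.2, hn.2⟩
      have hp := A.min'_mem hAne
      obtain ⟨p1, p2, p3, p4⟩ := hmem _ hp
      refine k2_sum A K U lam M (A.min' hAne) (fun n => n - A.min' hAne) hlam hp (hKU _) ?_ ?_
      · intro a ha b hb hab
        have h1 := A.min'_le a (mem_of_mem_erase (mem_coe.1 ha))
        have h2 := A.min'_le b (mem_of_mem_erase (mem_coe.1 hb))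
        simp only at hab
        omega
      · intro n hn
        have hnA := mem_of_mem_erase hn
        have h1 := A.min'_le n hnA
        have h2 : n ≠ A.min' hAne := ne_of_mem_erase hn
        obtain ⟨n1, n2, n3, n4⟩ := hmem n hnA
        refine ⟨by omega, by omega, ?_⟩
        have h3 := hmono _ _ p1 h1 n2
        have h4 : lam * ((n - A.min' hAne : ℕ) : ℝ) ≤ |z n - al - round (z n - al)| := by
          rw [Nat.cast_sub h1, n3]
          refine le_trans ?_ (le_abs_self _)
          linarith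
        refine le_trans (mul_le_mul_of_nonneg_left (mul_le_mul_of_nonneg_left h4 (by norm_num)) ?_) (hKm n)
        rw [hK]
        exact norm_nonneg _
    have hN : ∑ n ∈ ((Ioc N M).filter (fun n => round (z n - al) = m)).filter (fun n => ¬ (m : ℝ) ≤ z n - al), K n ≤
        U + (1 + Real.log M) / (2 * lam) := by
      obtain ⟨A, hA⟩ : ∃ A : Finset ℕ, A = ((Ioc N M).filter (fun n => round (z n - al) = m)).filter (fun n => ¬ (m : ℝ) ≤ z n - al) :=
        ⟨_, rfl⟩
      rw [← hA]
      rcases A.eq_empty_or_nonempty with hAe | hAne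
      · rw [hAe, sum_empty]
        exact h0
      have hmem : ∀ n ∈ A, N < n ∧ n ≤ M ∧ round (z n - al) = m ∧ z n - al < (m : ℝ) := by
        intro n hn
        rw [hA, mem_filter, mem_filter, mem_Ioc] at hn
        exact ⟨hn.1.1.1, hn.1.1.2, hn.1.2, not_le.1 hn.2⟩
      have hp := A.max'_mem hAne
      obtain ⟨p1, p2, p3, p4⟩ := hmem _ hp
      refine k2_sum A K U lam M (A.max' hAne) (fun n => A.max' hAne - n) hlam hp (hKU _) ?_ ?_
      · intro a ha b hb hab
        have h1 := A.le_max' a (mem_of_mem_erase (mem_coe.1 ha))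
        have h2 := A.le_max' b (mem_of_mem_erase (mem_coe.1 hb))
        simp only at hab
        omega
      · intro n hn
        have hnA := mem_of_mem_erase hn
        have h1 := A.le_max' n hnA
        have h2 : n ≠ A.max' hAne := ne_of_mem_erase hn
        obtain ⟨n1, n2, n3, n4⟩ := hmem n hnA
        refine ⟨by omega, by omega, ?_⟩
        have h3 := hmono _ _ n1 h1 p2
        have h4 : lam * ((A.max' hAne - n : ℕ) : ℝ) ≤ |z n - al - round (z n - al)| := by
          rw [Nat.cast_sub h1, n3]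
          refine le_trans ?_ (neg_le_abs _)
          linarith
        refine le_trans (mul_le_mul_of_nonneg_left (mul_le_mul_of_nonneg_left h4 (by norm_num)) ?_) (hKm n)
        rw [hK]
        exact norm_nonneg _
    rw [← sum_filter_add_sum_filter_not _ (fun n => (m : ℝ) ≤ z n - al)]
    have h5 : (1 + Real.log M) / lam = 2 * ((1 + Real.log M) / (2 * lam)) := by
      field_simp
    rw [h5]
    linarith
  have hclass0 : 0 ≤ 2 * (U : ℝ) + (1 + Real.log M) / lam := by positivity
  have hgoal : ∑ n ∈ Ioc N M, K n ≤ (W + 2) * (2 * U + (1 + Real.log M) / lam) := by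
    rcases Nat.lt_or_ge N M with hNM | hNM
    swap
    · rw [Ioc_eq_empty_of_le hNM, sum_empty]
      positivity
    have hrm : ∀ x y : ℝ, x ≤ y → round x ≤ round y := by
      intro x y hxy
      rw [round_eq, round_eq]
      exact Int.floor_mono (by linarith)
    have hmaps : ∀ n ∈ Ioc N M, round (z n - al) ∈ Icc (round (z (N + 1) - al)) (round (z M - al)) := by
      intro n hn
      rw [mem_Ioc] at hn
      rw [mem_Icc]
      exact ⟨hrm _ _ (hmono' _ _ (by omega) (by omega) hn.2), hrm _ _ (hmono' _ _ hn.1 hn.2 le_rfl)⟩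
    rw [← sum_fiberwise_of_maps_to hmaps]
    refine (sum_le_sum fun m _ => hclass m).trans ?_
    rw [sum_const, nsmul_eq_mul]
    refine mul_le_mul_of_nonneg_right ?_ hclass0
    have h1 : round (z (N + 1) - al) ≤ round (z M - al) := hrm _ _ (hmono' _ _ (by omega) (by omega) le_rfl)
    have h2 : ((Icc (round (z (N + 1) - al)) (round (z M - al))).card : ℤ) = round (z M - al) + 1 - round (z (N + 1) - al) := by
      rw [Int.card_Icc, Int.toNat_of_nonneg (by omega)]
    have h3 : ((Icc (round (z (N + 1) - al)) (round (z M - al))).card : ℝ) =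
        (round (z M - al) : ℝ) + 1 - (round (z (N + 1) - al) : ℝ) := by
      exact_mod_cast h2
    have h4 := abs_le.1 (abs_sub_round (z M - al))
    have h5 := abs_le.1 (abs_sub_round (z (N + 1) - al))
    have h6 : z M - z (N + 1) ≤ W := by
      rcases (Nat.succ_le_of_lt hNM).lt_or_eq with h7 | h7
      · exact hr (N + 1) M (by omega) h7 le_rfl
      · rw [Nat.succ_eq_add_one] at h7
        rw [h7]
        simpa using hW
    rw [h3]
    linarith [h4.1, h5.2]
  rw [hK] at hgoal
  exact hgoal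

end Pool.Agent.Lib.ZB
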