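import Pool.Agent.Lib.ZB.Defs

/-!
# ZB / L (90 lines): duality and Schur's test

PROOF.  `F n = ∑_{m<U} a m e(m x n)`, `c n = conj (F n)`, `S = ∑_{n ∈ I} ‖F n‖^2 = ∑_n c n F n = ∑_m a m (∑_n c n e(m x n))`.  Cauchy-Schwarz:
`S^2 ≤ (∑ ‖a m‖^2) (∑_m ‖∑_n c n e(m x n)‖^2)`, and
`∑_m ‖∑_n c n e(m x n)‖^2 = ∑_{n,n'} c n conj(c n') K(n,n')`, `K(n,n') = ∑_{m<U} e(m (x n - x n'))` (real number, take norms)
`≤ ∑_{n,n'} ((‖c n‖^2 + ‖c n'‖^2)/2) ‖K(n,n')‖ ≤ B S` (`‖K(n',n)‖ = ‖K(n,n')‖` because `K(n',n) = conj K(n,n')`).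
So `S^2 ≤ A B S`; divide by `S` (`S = 0`: the right side is `≥ 0`).
-/

set_option autoImplicit false

namespace Pool.Agent.Lib.ZB

open Finset

private lemma schurT_sym (x : ℕ → ℝ) (U n n' : ℕ) :
    ‖∑ m ∈ range U, e ((m : ℝ) * (x n' - x n))‖ = ‖∑ m ∈ range U, e ((m : ℝ) * (x n - x n'))‖ := by
  rw [← RCLike.norm_conj (∑ m ∈ range U, e ((m : ℝ) * (x n' - x n))), map_sum]
  congr 1
  refine sum_congr rfl fun m _ => ?_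
  rw [e_conj]
  congr 1
  ring

private lemma schurT_exp (I : Finset ℕ) (x : ℕ → ℝ) (U : ℕ) (F : ℕ → ℂ) :
    ((∑ m ∈ range U, ‖∑ n ∈ I, (starRingEnd ℂ) (F n) * e ((m : ℝ) * x n)‖ ^ 2 : ℝ) : ℂ) =
      ∑ n ∈ I, ∑ n' ∈ I, (starRingEnd ℂ) (F n) * F n' * ∑ m ∈ range U, e ((m : ℝ) * (x n - x n')) := by
  have h1 : ∀ m : ℕ, ((‖∑ n ∈ I, (starRingEnd ℂ) (F n) * e ((m : ℝ) * x n)‖ ^ 2 : ℝ) : ℂ) =
      ∑ n ∈ I, ∑ n' ∈ I, (starRingEnd ℂ) (F n) * F n' * e ((m : ℝ) * (x n - x n')) := by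
    intro m
    have h2 : ((‖∑ n ∈ I, (starRingEnd ℂ) (F n) * e ((m : ℝ) * x n)‖ ^ 2 : ℝ) : ℂ) =
        (∑ n ∈ I, (starRingEnd ℂ) (F n) * e ((m : ℝ) * x n)) *
          (starRingEnd ℂ) (∑ n ∈ I, (starRingEnd ℂ) (F n) * e ((m : ℝ) * x n)) := by
      rw [Complex.mul_conj, Complex.normSq_eq_norm_sq]
    rw [h2, map_sum, sum_mul_sum]
    refine sum_congr rfl fun n _ => sum_congr rfl fun n' _ => ?_
    rw [map_mul, Complex.conj_conj, show (m : ℝ) * (x n - x n') = (m : ℝ) * x n - (m : ℝ) * x n' by ring, e_sub]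
    ring
  rw [Complex.ofReal_sum, sum_congr rfl fun m _ => h1 m, sum_comm]
  refine sum_congr rfl fun n _ => ?_
  rw [sum_comm]
  refine sum_congr rfl fun n' _ => ?_
  rw [mul_sum]

private lemma schurT_bound (I : Finset ℕ) (x : ℕ → ℝ) (U : ℕ) (B : ℝ)
    (hB : ∀ n ∈ I, ∑ n' ∈ I, ‖∑ m ∈ range U, e ((m : ℝ) * (x n - x n'))‖ ≤ B) (F : ℕ → ℂ) :
    ∑ m ∈ range U, ‖∑ n ∈ I, (starRingEnd ℂ) (F n) * e ((m : ℝ) * x n)‖ ^ 2 ≤ B * ∑ n ∈ I, ‖F n‖ ^ 2 := by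
  have h0 : 0 ≤ ∑ m ∈ range U, ‖∑ n ∈ I, (starRingEnd ℂ) (F n) * e ((m : ℝ) * x n)‖ ^ 2 :=
    sum_nonneg fun m _ => by positivity
  have h1 : ∑ m ∈ range U, ‖∑ n ∈ I, (starRingEnd ℂ) (F n) * e ((m : ℝ) * x n)‖ ^ 2 =
      ‖∑ n ∈ I, ∑ n' ∈ I, (starRingEnd ℂ) (F n) * F n' * ∑ m ∈ range U, e ((m : ℝ) * (x n - x n'))‖ := by
    rw [← schurT_exp, Complex.norm_real, Real.norm_of_nonneg h0]
  rw [h1]
  have h2 : ‖∑ n ∈ I, ∑ n' ∈ I, (starRingEnd ℂ) (F n) * F n' * ∑ m ∈ range U, e ((m : ℝ) * (x n - x n'))‖ ≤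
      ∑ n ∈ I, ∑ n' ∈ I, (‖F n‖ ^ 2 / 2 * ‖∑ m ∈ range U, e ((m : ℝ) * (x n - x n'))‖ +
        ‖F n'‖ ^ 2 / 2 * ‖∑ m ∈ range U, e ((m : ℝ) * (x n' - x n))‖) := by
    refine (norm_sum_le _ _).trans (sum_le_sum fun n _ => (norm_sum_le _ _).trans (sum_le_sum fun n' _ => ?_))
    rw [norm_mul, norm_mul, RCLike.norm_conj, schurT_sym x U n n']
    have h3 := norm_nonneg (∑ m ∈ range U, e ((m : ℝ) * (x n - x n')))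
    have h4 := sq_nonneg (‖F n‖ - ‖F n'‖)
    nlinarith [mul_nonneg h3 h4]
  refine h2.trans ?_
  have h5 : ∑ n ∈ I, ∑ n' ∈ I, (‖F n‖ ^ 2 / 2 * ‖∑ m ∈ range U, e ((m : ℝ) * (x n - x n'))‖ +
        ‖F n'‖ ^ 2 / 2 * ‖∑ m ∈ range U, e ((m : ℝ) * (x n' - x n))‖) =
      ∑ n ∈ I, ‖F n‖ ^ 2 * ∑ n' ∈ I, ‖∑ m ∈ range U, e ((m : ℝ) * (x n - x n'))‖ := by
    simp_rw [sum_add_distrib]
    rw [sum_comm (f := fun n n' => ‖F n'‖ ^ 2 / 2 * ‖∑ m ∈ range U, e ((m : ℝ) * (x n' - x n))‖), ← sum_add_distrib]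
    refine sum_congr rfl fun n _ => ?_
    rw [← mul_sum]
    ring
  rw [h5, mul_sum]
  refine sum_le_sum fun n hn => ?_
  rw [mul_comm B]
  exact mul_le_mul_of_nonneg_left (hB n hn) (by positivity)

theorem schurT (I : Finset ℕ) (x : ℕ → ℝ) (U : ℕ) (B : ℝ) (hB0 : 0 ≤ B)
    (hB : ∀ n ∈ I, ∑ n' ∈ I, ‖∑ m ∈ range U, e ((m : ℝ) * (x n - x n'))‖ ≤ B) (a : ℕ → ℂ) :
    ∑ n ∈ I, ‖∑ m ∈ range U, a m * e ((m : ℝ) * x n)‖ ^ 2 ≤ B * ∑ m ∈ range U, ‖a m‖ ^ 2 := by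
  set F : ℕ → ℂ := fun n => ∑ m ∈ range U, a m * e ((m : ℝ) * x n) with hF
  set G : ℕ → ℂ := fun m => ∑ n ∈ I, (starRingEnd ℂ) (F n) * e ((m : ℝ) * x n) with hG
  set S : ℝ := ∑ n ∈ I, ‖F n‖ ^ 2 with hS
  have hS0 : 0 ≤ S := sum_nonneg fun n _ => by positivity
  have hA0 : 0 ≤ ∑ m ∈ range U, ‖a m‖ ^ 2 := sum_nonneg fun m _ => by positivity
  have h1 : (S : ℂ) = ∑ m ∈ range U, a m * G m := by
    rw [hS, Complex.ofReal_sum]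
    have h2 : ∀ n ∈ I, ((‖F n‖ ^ 2 : ℝ) : ℂ) = ∑ m ∈ range U, a m * ((starRingEnd ℂ) (F n) * e ((m : ℝ) * x n)) := by
      intro n _
      rw [← Complex.normSq_eq_norm_sq, ← Complex.mul_conj]
      conv_lhs => rw [hF]
      simp only
      rw [sum_mul]
      refine sum_congr rfl fun m _ => ?_
      ring
    rw [sum_congr rfl h2, sum_comm]
    refine sum_congr rfl fun m _ => ?_
    rw [hG, mul_sum]
  have h2 : S ≤ ∑ m ∈ range U, ‖a m‖ * ‖G m‖ := by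
    have h3 : S = ‖∑ m ∈ range U, a m * G m‖ := by
      rw [← h1, Complex.norm_real, Real.norm_of_nonneg hS0]
    rw [h3]
    refine (norm_sum_le _ _).trans (sum_le_sum fun m _ => ?_)
    rw [norm_mul]
  have h3 : S ^ 2 ≤ (∑ m ∈ range U, ‖a m‖ ^ 2) * (B * S) := by
    calc S ^ 2 ≤ (∑ m ∈ range U, ‖a m‖ * ‖G m‖) ^ 2 := by gcongr
      _ ≤ (∑ m ∈ range U, ‖a m‖ ^ 2) * ∑ m ∈ range U, ‖G m‖ ^ 2 := sum_mul_sq_le_sq_mul_sq _ _ _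
      _ ≤ (∑ m ∈ range U, ‖a m‖ ^ 2) * (B * S) := by
          gcongr
          exact schurT_bound I x U B hB F
  rcases hS0.eq_or_lt with h | h
  · rw [← h]
    positivity
  · have h4 : S * S ≤ (B * ∑ m ∈ range U, ‖a m‖ ^ 2) * S := by nlinarith
    exact le_of_mul_le_mul_right h4 h

end Pool.Agent.Lib.ZB
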