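import Pool.Agent.Lib.ZB.K2

/-!
# ZB / P (120 lines): the points `t/(2 π k n^k)`

PROOF.  `z n = - t/(2 π k n^k)`; `cz t n k = - (-1)^k z n`.  So `cz t n k - cz t n' k = (-1)^k (z n' - z n)`; for `k` even apply `spacedK` with `al = z n`, for `k` odd
the same after `ker_neg`.  Gaps: for `N < m < m'`, `m' ≤ M ≤ 2N`: `z m' - z m = (t/(2 π k)) (m^(-k) - m'^(-k))`, and by Bernoulli
`(m'/m)^k ≥ (1 + (m'-m)/m)^k ≥ 1 + k (m'-m)/m ≥ 1 + k (m'-m)/m'`, so `m^(-k) - m'^(-k) ≥ k (m'-m) m'^(-k-1) ≥ k (m'-m) (2N)^(-k-1)`: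
`lam = t/(2 π (2N)^(k+1))`.  Range: `W = t/N^k` (`z m' - z m ≤ t/(2 π k m^k) ≤ t/N^k`).  `spacedK` gives
`(t/N^k + 2)(2U + (1 + log(2N)) 2 π 2^(k+1) N^(k+1)/t)`, and `1 + log (2N) ≤ 2 (1 + log N)`: `C = 2 · 2 · 2 · 2 π · 2^(k+1)` (any).
-/

set_option autoImplicit false

namespace Pool.Agent.Lib.ZB

open Finset

private lemma ptsK_gap (k : ℕ) (a b : ℝ) (ha : 0 < a) (hab : a ≤ b) :
    (k : ℝ) * (b - a) / b ^ (k + 1) ≤ 1 / a ^ k - 1 / b ^ k := by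
  have hb : 0 < b := ha.trans_le hab
  have h1 : 1 + (k : ℝ) * ((b - a) / a) ≤ (1 + (b - a) / a) ^ k :=
    one_add_mul_le_pow (by have : 0 ≤ (b - a) / a := div_nonneg (by linarith) ha.le; linarith) k
  have h2 : 1 + (b - a) / a = b / a := by field_simp; ring
  have h3 : (k : ℝ) * ((b - a) / b) ≤ (k : ℝ) * ((b - a) / a) := by
    have h4 : (b - a) / b ≤ (b - a) / a := div_le_div_of_nonneg_left (by linarith) ha hab
    exact mul_le_mul_of_nonneg_left h4 (Nat.cast_nonneg _)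
  rw [h2] at h1
  have h5 : 1 + (k : ℝ) * ((b - a) / b) ≤ (b / a) ^ k := by linarith
  have h6 : 1 / a ^ k - 1 / b ^ k = ((b / a) ^ k - 1) / b ^ k := by
    rw [div_pow]
    field_simp
  have h7 : (k : ℝ) * (b - a) / b ^ (k + 1) = ((k : ℝ) * ((b - a) / b)) / b ^ k := by
    rw [pow_succ]
    field_simp
  rw [h6, h7]
  exact div_le_div_of_nonneg_right (by linarith) (by positivity)

theorem ptsK (k : ℕ) (hk : 1 ≤ k) : ∃ C : ℝ, 0 ≤ C ∧ ∀ (N M U : ℕ) (t : ℝ), 1 ≤ N → M ≤ 2 * N → 0 < t →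
    ∀ n ∈ Ioc N M, ∑ n' ∈ Ioc N M, ‖∑ m ∈ range U, e ((m : ℝ) * (cz t n k - cz t n' k))‖ ≤
      C * (1 + t / (N : ℝ) ^ k) * ((U : ℝ) + (N : ℝ) ^ (k + 1) / t) * (1 + Real.log N) := by
  have hpi := Real.pi_pos
  refine ⟨8 * Real.pi * 2 ^ (k + 1), by positivity, fun N M U t hN hM ht n hn => ?_⟩
  have hN1 : (1 : ℝ) ≤ N := by exact_mod_cast hN
  have hk1 : (1 : ℝ) ≤ k := by exact_mod_cast hk
  have hlN : 0 ≤ Real.log N := Real.log_nonneg hN1
  obtain ⟨z, hz⟩ : ∃ z : ℕ → ℝ, z = fun n : ℕ => -(t / (2 * Real.pi * k * (n : ℝ) ^ k)) := ⟨_, rfl⟩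
  have hsgn : ∀ n' : ℕ, cz t n k - cz t n' k = (-1) ^ k * (z n' - z n) := by
    intro n'
    rw [hz]
    unfold cz
    ring
  have hcong : ∀ n' ∈ Ioc N M, ‖∑ m ∈ range U, e ((m : ℝ) * (cz t n k - cz t n' k))‖ =
      ‖∑ m ∈ range U, e ((m : ℝ) * (z n' - z n))‖ := by
    intro n' _
    rw [hsgn]
    rcases Nat.even_or_odd k with h | h
    · rw [h.neg_one_pow, one_mul]
    · rw [h.neg_one_pow, neg_one_mul, ker_neg]
  rw [sum_congr rfl hcong]
  obtain ⟨lam, hlam⟩ : ∃ lam : ℝ, lam = t / (2 * Real.pi * (2 * (N : ℝ)) ^ (k + 1)) := ⟨_, rfl⟩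
  have hlam0 : 0 < lam := by rw [hlam]; positivity
  have hW0 : 0 ≤ t / (N : ℝ) ^ k := by positivity
  have hdif : ∀ a b : ℕ, z b - z a = t / (2 * Real.pi * k) * (1 / (a : ℝ) ^ k - 1 / (b : ℝ) ^ k) := by
    intro a b
    rw [hz]
    simp only
    rw [mul_sub, div_mul_div_comm, div_mul_div_comm, mul_one]
    ring
  have hgap : ∀ a b : ℕ, N < a → a < b → b ≤ M → lam * ((b : ℝ) - a) ≤ z b - z a := by
    intro a b h1 h2 h3
    have ha : (0 : ℝ) < a := by exact_mod_cast (by omega : 0 < a)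
    have hab : (a : ℝ) ≤ b := by exact_mod_cast h2.le
    have hb : (b : ℝ) ≤ 2 * N := by exact_mod_cast h3.trans hM
    have hb0 : (0 : ℝ) < b := ha.trans_le hab
    have h4 := ptsK_gap k a b ha hab
    have h5 : (k : ℝ) * (b - a) / (2 * (N : ℝ)) ^ (k + 1) ≤ (k : ℝ) * (b - a) / (b : ℝ) ^ (k + 1) := by
      apply div_le_div_of_nonneg_left
      · exact mul_nonneg (Nat.cast_nonneg _) (by linarith)
      · positivity
      · gcongr
    rw [hdif]
    calc lam * ((b : ℝ) - a) = t / (2 * Real.pi * k) * ((k : ℝ) * (b - a) / (2 * (N : ℝ)) ^ (k + 1)) := by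
          rw [hlam]
          field_simp
      _ ≤ t / (2 * Real.pi * k) * (1 / (a : ℝ) ^ k - 1 / (b : ℝ) ^ k) := by
          apply mul_le_mul_of_nonneg_left (h5.trans h4)
          positivity
  have hr : ∀ a b : ℕ, N < a → a < b → b ≤ M → z b - z a ≤ t / (N : ℝ) ^ k := by
    intro a b h1 h2 h3
    have ha : (N : ℝ) ≤ a := by exact_mod_cast h1.le
    have ha0 : (0 : ℝ) < a := by linarith
    have hb0 : (0 : ℝ) < b := by exact_mod_cast (by omega : 0 < b)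
    rw [hdif]
    have h4 : 1 / (a : ℝ) ^ k - 1 / (b : ℝ) ^ k ≤ 1 / (N : ℝ) ^ k := by
      have h5 : 1 / (a : ℝ) ^ k ≤ 1 / (N : ℝ) ^ k := by
        apply one_div_le_one_div_of_le (by positivity)
        gcongr
      have h6 : 0 ≤ 1 / (b : ℝ) ^ k := by positivity
      linarith
    have h7 : 1 ≤ 2 * Real.pi * k := by nlinarith [Real.pi_gt_three]
    calc t / (2 * Real.pi * k) * (1 / (a : ℝ) ^ k - 1 / (b : ℝ) ^ k) ≤ t / (2 * Real.pi * k) * (1 / (N : ℝ) ^ k) := by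
          apply mul_le_mul_of_nonneg_left h4
          positivity
      _ ≤ t * (1 / (N : ℝ) ^ k) := by
          apply mul_le_mul_of_nonneg_right _ (by positivity)
          exact div_le_self ht.le h7
      _ = t / (N : ℝ) ^ k := by ring
  have hmain := spacedK N M U z lam (t / (N : ℝ) ^ k) (z n) hlam0 hW0 hgap hr
  refine hmain.trans ?_
  have hnM := (mem_Ioc.mp hn).2
  have hNn := (mem_Ioc.mp hn).1
  have hM0 : (0 : ℝ) < M := by exact_mod_cast (by omega : 0 < M)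
  have hlM : 1 + Real.log M ≤ 2 * (1 + Real.log N) := by
    have h1 : Real.log M ≤ Real.log (2 * N) := Real.log_le_log hM0 (by exact_mod_cast hM)
    rw [Real.log_mul (by norm_num) (by linarith)] at h1
    have h2 := Real.log_two_lt_d9
    linarith
  have hinv : (1 + Real.log M) / lam ≤ (1 + Real.log N) * (4 * Real.pi * 2 ^ (k + 1) * ((N : ℝ) ^ (k + 1) / t)) := by
    have h1 : (1 + Real.log M) / lam ≤ 2 * (1 + Real.log N) / lam := div_le_div_of_nonneg_right hlM hlam0.le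
    refine h1.trans (le_of_eq ?_)
    rw [hlam, mul_pow]
    field_simp
    ring
  have h2k : (2 : ℝ) ≤ 2 ^ (k + 1) := by
    calc (2 : ℝ) = 2 ^ 1 := by norm_num
      _ ≤ 2 ^ (k + 1) := pow_le_pow_right₀ (by norm_num) (by omega)
  have hC1 : (2 : ℝ) ≤ 4 * Real.pi * 2 ^ (k + 1) := by nlinarith [Real.pi_gt_three]
  have hU : (0 : ℝ) ≤ U := Nat.cast_nonneg _
  have hNt : 0 ≤ (N : ℝ) ^ (k + 1) / t := by positivity
  have h2 : 2 * (U : ℝ) + (1 + Real.log M) / lam ≤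
      (1 + Real.log N) * (4 * Real.pi * 2 ^ (k + 1)) * ((U : ℝ) + (N : ℝ) ^ (k + 1) / t) := by
    have h3 : 2 * (U : ℝ) ≤ (1 + Real.log N) * (4 * Real.pi * 2 ^ (k + 1)) * U := by
      apply mul_le_mul_of_nonneg_right _ hU
      nlinarith
    nlinarith
  have h3 : t / (N : ℝ) ^ k + 2 ≤ 2 * (1 + t / (N : ℝ) ^ k) := by linarith
  have h4 : 0 ≤ 2 * (U : ℝ) + (1 + Real.log M) / lam := by
    have : 0 ≤ Real.log (M : ℝ) := Real.log_natCast_nonneg M
    positivity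
  calc (t / (N : ℝ) ^ k + 2) * (2 * U + (1 + Real.log M) / lam)
      ≤ (2 * (1 + t / (N : ℝ) ^ k)) * ((1 + Real.log N) * (4 * Real.pi * 2 ^ (k + 1)) * ((U : ℝ) + (N : ℝ) ^ (k + 1) / t)) :=
        mul_le_mul h3 h2 h4 (by positivity)
    _ = 8 * Real.pi * 2 ^ (k + 1) * (1 + t / (N : ℝ) ^ k) * ((U : ℝ) + (N : ℝ) ^ (k + 1) / t) * (1 + Real.log N) := by ring

end Pool.Agent.Lib.ZB
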