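import Pool.Agent.Lib.ZB.X1
import Pool.Agent.Lib.ZB.P

/-!
# ZB / M (150 lines): the moment of the blocks

PROOF.  `s = k (k+1)/2` (`2 s = k (k+1)`, even), `expandT` with `I = (N, M]`, `c n = cz t n`, `U = s H^k + 1 ≤ 2 s H^(k+1)`,
`B = C (1 + t/N^k)(U + N^(k+1)/t)(1 + log N)` of `ptsK` and `N^(k+1)/t ≤ (2H)^(k+1)` (hypothesis): `B ≤ C' (1 + t/N^k) H^(k+1) (1 + log N)`.
`∏_{1 ≤ j ≤ k-1} (s H^j + 1) ≤ ∏ (2 s H^j) = (2s)^(k-1) H^(k(k-1)/2)` (`1 ≤ H`, `1 ≤ s`; `∑_{j ≤ k-1} j = k(k-1)/2`), `VJ s k H ≤ C'' H^(s+ε)`.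
Exponents: `(k+1) + k(k-1)/2 + k(k+1)/2 + ε = k(k+1) + 1 + ε`.
-/

set_option autoImplicit false

namespace Pool.Agent.Lib.ZB

open Finset

private theorem M_gauss (n : ℕ) : 2 * ∑ j ∈ Icc 1 n, j = n * (n + 1) := by
  induction n with
  | zero => simp
  | succ n ih => rw [sum_Icc_succ_top (by omega), mul_add, ih]; ring

private theorem M_prod (s H n : ℕ) (hs : 1 ≤ s) (hH : 1 ≤ H) :
    ∏ j ∈ Icc 1 n, ((s : ℝ) * (H : ℝ) ^ j + 1) ≤ (2 * (s : ℝ)) ^ n * (H : ℝ) ^ (∑ j ∈ Icc 1 n, j) := by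
  have hs' : (1 : ℝ) ≤ s := by exact_mod_cast hs
  have hH' : (1 : ℝ) ≤ H := by exact_mod_cast hH
  calc ∏ j ∈ Icc 1 n, ((s : ℝ) * (H : ℝ) ^ j + 1) ≤ ∏ j ∈ Icc 1 n, ((2 * (s : ℝ)) * (H : ℝ) ^ j) := by
        refine prod_le_prod (fun j _ => by positivity) fun j _ => ?_
        have h1 : (1 : ℝ) ≤ (H : ℝ) ^ j := one_le_pow₀ hH'
        have h2 : (1 : ℝ) ≤ (s : ℝ) * (H : ℝ) ^ j := one_le_mul_of_one_le_of_one_le hs' h1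
        linarith
    _ = (2 * (s : ℝ)) ^ n * (H : ℝ) ^ (∑ j ∈ Icc 1 n, j) := by
        rw [prod_mul_distrib, prod_const, Nat.card_Icc, Nat.add_sub_cancel, prod_pow_eq_pow_sum]

theorem momentT (hV : VMV) (k : ℕ) (hk : 2 ≤ k) {ε : ℝ} (hε : 0 < ε) : ∃ C : ℝ, 0 ≤ C ∧
    ∀ (N M H : ℕ) (t : ℝ), 1 ≤ N → M ≤ 2 * N → 1 ≤ t → 1 ≤ H →
      (N : ℝ) ^ (k + 1) ≤ t * (2 * (H : ℝ)) ^ (k + 1) → ∀ w : ℕ → ℂ, (∀ h, ‖w h‖ ≤ 1) →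
      ∑ n ∈ Ioc N M, ‖∑ h ∈ range H, w h * e (ph k (cz t n) h)‖ ^ (k * (k + 1)) ≤
        C * (1 + t / (N : ℝ) ^ k) * (1 + Real.log N) * (H : ℝ) ^ (((k * (k + 1) : ℕ) : ℝ) + 1 + ε) := by
  obtain ⟨C0, hC0, hpts⟩ := ptsK k (by omega)
  obtain ⟨C1, hC1, hVJ⟩ := hV k (by omega) ε hε
  set s : ℕ := k * (k + 1) / 2 with hs
  have h2s : 2 * s = k * (k + 1) := Nat.mul_div_cancel' (Nat.even_mul_succ_self k).two_dvd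
  have hs1 : 1 ≤ s := by
    have : 2 * 3 ≤ k * (k + 1) := Nat.mul_le_mul hk (by omega)
    omega
  have hs1' : (1 : ℝ) ≤ s := by exact_mod_cast hs1
  refine ⟨C0 * (2 * s + 2 ^ (k + 1)) * (2 * (s : ℝ)) ^ (k - 1) * C1, by positivity, ?_⟩
  intro N M H t hN hM ht hH hNt w hw
  have hN' : (1 : ℝ) ≤ N := by exact_mod_cast hN
  have hH' : (1 : ℝ) ≤ H := by exact_mod_cast hH
  have hH0 : (0 : ℝ) < H := by linarith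
  have ht0 : 0 < t := by linarith
  have hlog : 0 ≤ Real.log N := Real.log_nonneg hN'
  have hB0 : 0 ≤ C0 * (1 + t / (N : ℝ) ^ k) * (((s * H ^ k + 1 : ℕ) : ℝ) + (N : ℝ) ^ (k + 1) / t) * (1 + Real.log N) := by
    positivity
  have hmain := expandT s k H (by omega) (Ioc N M) (cz t) w hw _ hB0
    (fun n hn => hpts N M (s * H ^ k + 1) t hN hM ht0 n hn)
  rw [h2s] at hmain
  refine hmain.trans ?_
  -- the kernel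
  have hU : ((s * H ^ k + 1 : ℕ) : ℝ) + (N : ℝ) ^ (k + 1) / t ≤ (2 * s + 2 ^ (k + 1)) * (H : ℝ) ^ (k + 1) := by
    push_cast
    have h1 : (H : ℝ) ^ k ≤ (H : ℝ) ^ (k + 1) := pow_le_pow_right₀ hH' (by omega)
    have h2 : (1 : ℝ) ≤ (H : ℝ) ^ (k + 1) := one_le_pow₀ hH'
    have h3 : (s : ℝ) * (H : ℝ) ^ k + 1 ≤ 2 * s * (H : ℝ) ^ (k + 1) := by
      have h4 : (s : ℝ) * (H : ℝ) ^ k ≤ s * (H : ℝ) ^ (k + 1) := by gcongr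
      have h5 : (1 : ℝ) ≤ s * (H : ℝ) ^ (k + 1) := one_le_mul_of_one_le_of_one_le hs1' h2
      linarith
    have h6 : (N : ℝ) ^ (k + 1) / t ≤ 2 ^ (k + 1) * (H : ℝ) ^ (k + 1) := by
      rw [div_le_iff₀ ht0, ← mul_pow]
      linarith
    linarith
  have hP := M_prod s H (k - 1) hs1 hH
  have hJ := hVJ H hH
  have hB : C0 * (1 + t / (N : ℝ) ^ k) * (((s * H ^ k + 1 : ℕ) : ℝ) + (N : ℝ) ^ (k + 1) / t) * (1 + Real.log N) ≤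
      C0 * (1 + t / (N : ℝ) ^ k) * ((2 * s + 2 ^ (k + 1)) * (H : ℝ) ^ (k + 1)) * (1 + Real.log N) := by
    gcongr
  have hexp : (H : ℝ) ^ (((k * (k + 1) : ℕ) : ℝ) + 1 + ε) =
      (H : ℝ) ^ (k + 1) * (H : ℝ) ^ (∑ j ∈ Icc 1 (k - 1), j) * (H : ℝ) ^ ((s : ℝ) + ε) := by
    have hg := M_gauss (k - 1)
    have hσ : k + 1 + (∑ j ∈ Icc 1 (k - 1), j) + s = k * (k + 1) + 1 := by
      obtain ⟨l, rfl⟩ : ∃ l, k = l + 1 := ⟨k - 1, by omega⟩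
      simp only [Nat.add_sub_cancel] at hg ⊢
      nlinarith
    rw [← Real.rpow_natCast (H : ℝ) (k + 1), ← Real.rpow_natCast (H : ℝ) (∑ j ∈ Icc 1 (k - 1), j),
      ← Real.rpow_add hH0, ← Real.rpow_add hH0]
    congr 1
    have hσ' : ((k + 1 + (∑ j ∈ Icc 1 (k - 1), j) + s : ℕ) : ℝ) = ((k * (k + 1) + 1 : ℕ) : ℝ) := by rw [hσ]
    rw [Nat.cast_add, Nat.cast_add, Nat.cast_add (k * (k + 1)) 1, Nat.cast_one] at hσ'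
    linarith
  rw [hexp]
  calc C0 * (1 + t / (N : ℝ) ^ k) * (((s * H ^ k + 1 : ℕ) : ℝ) + (N : ℝ) ^ (k + 1) / t) * (1 + Real.log N) *
        (∏ j ∈ Icc 1 (k - 1), ((s : ℝ) * (H : ℝ) ^ j + 1)) * (VJ s k H : ℝ)
      ≤ C0 * (1 + t / (N : ℝ) ^ k) * ((2 * s + 2 ^ (k + 1)) * (H : ℝ) ^ (k + 1)) * (1 + Real.log N) *
        ((2 * (s : ℝ)) ^ (k - 1) * (H : ℝ) ^ (∑ j ∈ Icc 1 (k - 1), j)) * (C1 * (H : ℝ) ^ ((s : ℝ) + ε)) := by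
        have hp0 : 0 ≤ ∏ j ∈ Icc 1 (k - 1), ((s : ℝ) * (H : ℝ) ^ j + 1) := prod_nonneg fun j _ => by positivity
        gcongr
    _ = _ := by ring

end Pool.Agent.Lib.ZB
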