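import Pool.Agent.Lib.ZB.Defs

/-!
# ZB / T1 (90 lines): the Taylor remainder of the logarithm

PROOF.  `rem k x = log(1+x) - ∑_{1 ≤ j ≤ k} (-1)^(j+1) x^j/j` has on `x ≥ 0` the derivative
`1/(1+x) - ∑_{j=1}^{k} (-x)^(j-1) = (-x)^k/(1+x)` (geometric sum: `(1+x) ∑_{i<k} (-x)^i = 1 - (-x)^k`), of absolute value `≤ x^k`.
Hence `F = rem k + x^(k+1)/(k+1)` and `G = -rem k + x^(k+1)/(k+1)` have derivatives `≥ 0` on `[0, ∞)` and are monotone
(`monotoneOn_of_deriv_nonneg`, or `image_sub_le_mul_sub_of_deriv_le`, or the mean value theorem), which is the claim.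
-/

set_option autoImplicit false

namespace Pool.Agent.Lib.ZB

open Finset

private theorem t1_geo (k : ℕ) (z : ℝ) :
    (1 + z) * ∑ j ∈ Icc 1 k, (-1 : ℝ) ^ (j + 1) * z ^ (j - 1) = 1 - (-z) ^ k := by
  induction k with
  | zero => simp
  | succ k ih =>
    rw [sum_Icc_succ_top (by omega), mul_add, ih, Nat.add_sub_cancel, neg_pow, neg_pow z (k + 1)]
    ring

private theorem t1_deriv (k : ℕ) (z : ℝ) (hz : 0 ≤ z) :
    HasDerivAt (rem k) ((-z) ^ k / (1 + z)) z := by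
  have h1 : (1 : ℝ) + z ≠ 0 := by positivity
  have h2 : HasDerivAt (fun x : ℝ => Real.log (1 + x)) (1 / (1 + z)) z := by
    have h := ((hasDerivAt_id z).const_add 1).log (by simpa using h1)
    simpa using h
  have h3 : HasDerivAt (fun x : ℝ => ∑ j ∈ Icc 1 k, (-1 : ℝ) ^ (j + 1) * x ^ j / (j : ℝ))
      (∑ j ∈ Icc 1 k, (-1 : ℝ) ^ (j + 1) * z ^ (j - 1)) z := by
    apply HasDerivAt.fun_sum
    intro j hj
    have hj1 : 1 ≤ j := (mem_Icc.1 hj).1
    have hj0 : (j : ℝ) ≠ 0 := by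
      have : (0 : ℝ) < j := by exact_mod_cast hj1
      exact this.ne'
    have h := ((hasDerivAt_pow j z).const_mul ((-1 : ℝ) ^ (j + 1))).div_const (j : ℝ)
    refine h.congr_deriv ?_
    field_simp
  have h4 := h2.sub h3
  have h5 : 1 / (1 + z) - ∑ j ∈ Icc 1 k, (-1 : ℝ) ^ (j + 1) * z ^ (j - 1) = (-z) ^ k / (1 + z) := by
    have := t1_geo k z
    rw [eq_div_iff h1, sub_mul, div_mul_cancel₀ _ h1, mul_comm _ (1 + z), this]
    ring
  rw [h5] at h4
  exact h4

private theorem t1_abs (k : ℕ) (z : ℝ) (hz : 0 ≤ z) : |(-z) ^ k / (1 + z)| ≤ z ^ k := by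
  have h1 : (0 : ℝ) < 1 + z := by positivity
  rw [abs_div, abs_pow, abs_neg, abs_of_nonneg hz, abs_of_pos h1, div_le_iff₀ h1]
  have : 0 ≤ z ^ k := by positivity
  nlinarith

private theorem t1_pow (k : ℕ) (z : ℝ) :
    HasDerivAt (fun x : ℝ => x ^ (k + 1) / ((k : ℝ) + 1)) (z ^ k) z := by
  have h0 : (k : ℝ) + 1 ≠ 0 := by positivity
  have h := (hasDerivAt_pow (k + 1) z).div_const ((k : ℝ) + 1)
  refine h.congr_deriv ?_
  push_cast
  field_simp

private theorem t1_mono (F : ℝ → ℝ) (F' : ℝ → ℝ) (h : ∀ z, 0 ≤ z → HasDerivAt F (F' z) z)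
    (h0 : ∀ z, 0 ≤ z → 0 ≤ F' z) (x y : ℝ) (hx : 0 ≤ x) (hxy : x ≤ y) : F x ≤ F y := by
  have hm : MonotoneOn F (Set.Ici 0) := by
    apply monotoneOn_of_deriv_nonneg (convex_Ici 0)
    · exact fun z hz => (h z hz).continuousAt.continuousWithinAt
    · intro z hz
      rw [interior_Ici] at hz
      exact (h z (le_of_lt hz)).differentiableAt.differentiableWithinAt
    · intro z hz
      rw [interior_Ici] at hz
      rw [(h z (le_of_lt hz)).deriv]
      exact h0 z (le_of_lt hz)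
  exact hm hx (hx.trans hxy) hxy

theorem rem_var (k : ℕ) (x y : ℝ) (hx : 0 ≤ x) (hxy : x ≤ y) :
    |rem k y - rem k x| ≤ (y ^ (k + 1) - x ^ (k + 1)) / (k + 1) := by
  have h1 := t1_mono (fun z => rem k z + z ^ (k + 1) / ((k : ℝ) + 1))
    (fun z => (-z) ^ k / (1 + z) + z ^ k) (fun z hz => (t1_deriv k z hz).add (t1_pow k z))
    (fun z hz => by
      have := t1_abs k z hz
      have h := neg_abs_le ((-z) ^ k / (1 + z))
      linarith) x y hx hxy
  have h2 := t1_mono (fun z => -rem k z + z ^ (k + 1) / ((k : ℝ) + 1))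
    (fun z => -((-z) ^ k / (1 + z)) + z ^ k) (fun z hz => (t1_deriv k z hz).neg.add (t1_pow k z))
    (fun z hz => by
      have := t1_abs k z hz
      have h := le_abs_self ((-z) ^ k / (1 + z))
      linarith) x y hx hxy
  rw [sub_div, abs_le]
  constructor <;> linarith

end Pool.Agent.Lib.ZB
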