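import Pool.Agent.Lib.ZB.X2

/-!
# ZB / X1 (150 lines): the power of a block as a sum over the vectors of power sums

PROOF.  `G n = (∑_{h<H} w h e(ph k (c n) h))^s = ∑_{x : Fin s → Fin H} ∏_i (w (x i) e(ph k (c n) (x i)))` (`Finset.sum_range`, `Finset.prod_univ_sum` or
`Fintype.sum_pow`), `∏_i e(ph k (c n) (x i)) = e(∑_{1 ≤ j ≤ k} c n j p_j(x))`, `p_j(x) = ∑_i (x i)^j` (`e_sum`).  Split the term `j = k` off (`k ≥ 1`):
`e(∑_{1 ≤ j ≤ k-1} c n j p_j(x)) e(c n k p_k(x))`.  Apply `groupT` with `X = Fin s → Fin H`, `K = ℕ → ℕ`,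
`κ x = fun j => if 1 ≤ j ∧ j ≤ k-1 then p_j(x) else 0`, `m x = p_k(x) ≤ s H^k`, `v x = ∏ w (x i)`, `α n κ = ∑_{1 ≤ j ≤ k-1} c n j κ_j`, `y n = c n k`, `U = s H^k + 1`.
`‖G n‖^2 = ‖block‖^(2s)`.  The number of pairs is `VJ s k H` (`κ x = κ x'` and `p_k(x) = p_k(x')` iff `p_j(x) = p_j(x')` for `1 ≤ j ≤ k`).  The number of values of `κ`:
`κ x` is determined by `(p_1(x), ..., p_(k-1)(x))` with `p_j(x) ∈ [0, s H^j]`: `≤ ∏_{j=1}^{k-1} (s H^j + 1)` (inject the image into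
`Fintype.piFinset` over `Fin (k-1)`, or `Finset.pi (Icc 1 (k-1)) (fun j => range (s H^j + 1))`, card = product).
-/

set_option autoImplicit false

namespace Pool.Agent.Lib.ZB

open Finset

private noncomputable def X1kap (s q H : ℕ) (x : Fin s → Fin H) (j : ℕ) : ℕ :=
  if j ∈ Icc 1 q then ∑ i, (x i : ℕ) ^ j else 0

private theorem X1_psum_le (s H j : ℕ) (x : Fin s → Fin H) : ∑ i, (x i : ℕ) ^ j ≤ s * H ^ j := by
  calc ∑ i, (x i : ℕ) ^ j ≤ ∑ _i : Fin s, H ^ j := sum_le_sum fun i _ => Nat.pow_le_pow_left (x i).isLt.le j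
    _ = s * H ^ j := by simp

open Classical in
private theorem X1_card (s q H : ℕ) :
    ((univ.image (X1kap s q H)).card : ℝ) ≤ ∏ j ∈ Icc 1 q, ((s : ℝ) * (H : ℝ) ^ j + 1) := by
  set g : (∀ j ∈ Icc 1 q, ℕ) → (ℕ → ℕ) := fun a j => if h : j ∈ Icc 1 q then a j h else 0 with hg
  have h1 : univ.image (X1kap s q H) ⊆ ((Icc 1 q).pi fun j => range (s * H ^ j + 1)).image g := by
    intro f hf
    obtain ⟨x, -, rfl⟩ := mem_image.1 hf
    refine mem_image.2 ⟨fun j _ => ∑ i, (x i : ℕ) ^ j, ?_, ?_⟩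
    · rw [mem_pi]
      intro j _
      exact mem_range.2 (Nat.lt_succ_of_le (X1_psum_le s H j x))
    · funext j
      simp only [hg, X1kap]
      by_cases h : j ∈ Icc 1 q
      · rw [dif_pos h, if_pos h]
      · rw [dif_neg h, if_neg h]
  have h2 : (univ.image (X1kap s q H)).card ≤ ∏ j ∈ Icc 1 q, (s * H ^ j + 1) := by
    refine (card_le_card h1).trans (card_image_le.trans ?_)
    rw [card_pi]
    simp
  calc ((univ.image (X1kap s q H)).card : ℝ) ≤ ((∏ j ∈ Icc 1 q, (s * H ^ j + 1) : ℕ) : ℝ) := by exact_mod_cast h2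
    _ = _ := by push_cast; rfl

open Classical in
private theorem X1_pairs (s q H : ℕ) :
    (univ.filter fun p : (Fin s → Fin H) × (Fin s → Fin H) => X1kap s q H p.1 = X1kap s q H p.2 ∧
      ∑ i, (p.1 i : ℕ) ^ (q + 1) = ∑ i, (p.2 i : ℕ) ^ (q + 1)).card ≤ VJ s (q + 1) H := by
  unfold VJ
  refine card_le_card fun p hp => ?_
  obtain ⟨h1, h2⟩ := (mem_filter.1 hp).2
  refine (@mem_filter _ _ (fun _ => Classical.propDecidable _) _ _).2 ⟨mem_univ _, fun j hj => ?_⟩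
  rw [mem_Icc] at hj
  rcases Nat.lt_or_ge j (q + 1) with h | h
  · have h3 := congrFun h1 j
    have h4 : j ∈ Icc 1 q := mem_Icc.2 ⟨hj.1, by omega⟩
    unfold X1kap at h3
    rw [if_pos h4, if_pos h4] at h3
    exact h3
  · have h5 : j = q + 1 := by omega
    rw [h5]
    exact h2

private theorem X1_phase (s q H : ℕ) (c : ℕ → ℝ) (x : Fin s → Fin H) :
    ∑ i, ph (q + 1) c (x i) =
      (∑ j ∈ Icc 1 q, c j * (X1kap s q H x j : ℝ)) + ((∑ i, (x i : ℕ) ^ (q + 1) : ℕ) : ℝ) * c (q + 1) := by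
  unfold ph
  rw [sum_comm, Finset.sum_Icc_succ_top (by omega : 1 ≤ q + 1)]
  congr 1
  · refine sum_congr rfl fun j hj => ?_
    unfold X1kap
    rw [if_pos hj, ← mul_sum]
    push_cast
    rfl
  · rw [← mul_sum, mul_comm]
    push_cast
    rfl

private theorem X1_expand (s q H : ℕ) (c : ℕ → ℝ) (w : ℕ → ℂ) :
    (∑ h ∈ range H, w h * e (ph (q + 1) c h)) ^ s =
      ∑ x : Fin s → Fin H, (∏ i, w (x i)) *
        (e (∑ j ∈ Icc 1 q, c j * (X1kap s q H x j : ℝ)) *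
          e (((∑ i, (x i : ℕ) ^ (q + 1) : ℕ) : ℝ) * c (q + 1))) := by
  rw [sum_range, Fintype.sum_pow]
  refine sum_congr rfl fun x _ => ?_
  rw [prod_mul_distrib, ← e_sum, X1_phase, e_add]

theorem expandT (s k H : ℕ) (hk : 1 ≤ k) (I : Finset ℕ) (c : ℕ → ℕ → ℝ) (w : ℕ → ℂ) (hw : ∀ h, ‖w h‖ ≤ 1)
    (B : ℝ) (hB0 : 0 ≤ B)
    (hB : ∀ n ∈ I, ∑ n' ∈ I, ‖∑ m ∈ range (s * H ^ k + 1), e ((m : ℝ) * (c n k - c n' k))‖ ≤ B) :
    ∑ n ∈ I, ‖∑ h ∈ range H, w h * e (ph k (c n) h)‖ ^ (2 * s) ≤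
      B * (∏ j ∈ Icc 1 (k - 1), ((s : ℝ) * (H : ℝ) ^ j + 1)) * (VJ s k H : ℝ) := by
  obtain ⟨q, rfl⟩ : ∃ q, k = q + 1 := ⟨k - 1, by omega⟩
  have hq : q + 1 - 1 = q := by omega
  rw [hq]
  have hv : ∀ x : Fin s → Fin H, ‖∏ i, w (x i)‖ ≤ 1 := by
    intro x
    rw [norm_prod]
    exact prod_le_one (fun i _ => norm_nonneg _) (fun i _ => hw _)
  have hm : ∀ x : Fin s → Fin H, ∑ i, (x i : ℕ) ^ (q + 1) < s * H ^ (q + 1) + 1 := fun x =>
    Nat.lt_succ_of_le (X1_psum_le s H (q + 1) x)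
  have key := groupT (X1kap s q H) (fun x => ∑ i, (x i : ℕ) ^ (q + 1)) (fun x => ∏ i, w (x i)) hv
    (s * H ^ (q + 1) + 1) hm I (fun n K => ∑ j ∈ Icc 1 q, c n j * (K j : ℝ)) (fun n => c n (q + 1)) B hB0 hB
  have h1 : ∑ n ∈ I, ‖∑ h ∈ range H, w h * e (ph (q + 1) (c n) h)‖ ^ (2 * s) =
      ∑ n ∈ I, ‖∑ x : Fin s → Fin H, (∏ i, w (x i)) *
        (e (∑ j ∈ Icc 1 q, c n j * (X1kap s q H x j : ℝ)) *
          e (((∑ i, (x i : ℕ) ^ (q + 1) : ℕ) : ℝ) * c n (q + 1)))‖ ^ 2 := by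
    refine sum_congr rfl fun n _ => ?_
    rw [← X1_expand, norm_pow, ← pow_mul, mul_comm s 2]
  rw [h1]
  refine key.trans ?_
  have h2 := X1_card s q H
  have h3 : (0 : ℝ) ≤ ∏ j ∈ Icc 1 q, ((s : ℝ) * (H : ℝ) ^ j + 1) := prod_nonneg fun j _ => by positivity
  refine mul_le_mul (mul_le_mul_of_nonneg_left h2 hB0) ?_ (Nat.cast_nonneg _) (mul_nonneg hB0 h3)
  exact_mod_cast X1_pairs s q H

end Pool.Agent.Lib.ZB
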