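import Pool.Agent.Lib.ZB.L

/-!
# ZB / X2: grouping, abstract form

PROOF.  `P = univ.image κ`.  `F n = ∑_x v x e(α n (κ x)) e(m x · y n) = ∑_{p ∈ P} e(α n p) ∑_{i<U} a p i e(i y n)`,
`a p i = ∑_{x : κ x = p, m x = i} v x`, `‖a p i‖ ≤ #{x : κ x = p, m x = i}`.  Cauchy-Schwarz over `p`
(`‖e‖ = 1`): `‖F n‖^2 ≤ |P| ∑_{p ∈ P} ‖∑_{i<U} a p i e(i y n)‖^2`; sum over `n ∈ I` and `schurT` for every `p`:
`≤ |P| B ∑_{p ∈ P} ∑_{i<U} ‖a p i‖^2 ≤ |P| B ∑_{p,i} #{x : κ x = p, m x = i}^2 = |P| B #{(x, x') : κ x = κ x', m x = m x'}`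
(the pairs are partitioned by the common value `(p, i)`).
-/

set_option autoImplicit false

namespace Pool.Agent.Lib.ZB

open Finset

open Classical in
private theorem x2_split {X K : Type} [Fintype X] (κ : X → K) (m : X → ℕ) (v : X → ℂ) (U : ℕ)
    (hm : ∀ x, m x < U) (A : K → ℝ) (t : ℝ) :
    ∑ x, v x * (e (A (κ x)) * e ((m x : ℝ) * t)) =
      ∑ p ∈ univ.image κ, e (A p) * ∑ i ∈ range U,
        (∑ x ∈ univ.filter (fun x => κ x = p ∧ m x = i), v x) * e ((i : ℝ) * t) := by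
  rw [← sum_fiberwise_of_maps_to (s := univ) (t := univ.image κ) (g := κ)
    (fun x _ => mem_image_of_mem κ (mem_univ x))]
  refine sum_congr rfl fun p _ => ?_
  rw [← sum_fiberwise_of_maps_to (s := univ.filter fun x => κ x = p) (t := range U) (g := m)
    (fun x _ => mem_range.mpr (hm x)), mul_sum]
  refine sum_congr rfl fun i _ => ?_
  rw [filter_filter, sum_mul, mul_sum]
  refine sum_congr rfl fun x hx => ?_
  have h := (mem_filter.mp hx).2
  rw [h.1, h.2]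
  ring

open Classical in
private theorem x2_pairs {X K : Type} [Fintype X] (κ : X → K) (m : X → ℕ) (U : ℕ)
    (hm : ∀ x, m x < U) :
    ∑ p ∈ univ.image κ, ∑ i ∈ range U, ((univ.filter (fun x => κ x = p ∧ m x = i)).card : ℝ) ^ 2 =
      ((univ.filter fun p : X × X => κ p.1 = κ p.2 ∧ m p.1 = m p.2).card : ℝ) := by
  have h1 : (univ.filter fun p : X × X => κ p.1 = κ p.2 ∧ m p.1 = m p.2).card =
      ∑ q ∈ (univ.image κ) ×ˢ range U,
        ((univ.filter fun p : X × X => κ p.1 = κ p.2 ∧ m p.1 = m p.2).filter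
          fun p => (κ p.1, m p.1) = q).card := by
    refine card_eq_sum_card_fiberwise fun p _ => ?_
    exact mem_coe.mpr (mem_product.mpr ⟨mem_image_of_mem κ (mem_univ p.1), mem_range.mpr (hm p.1)⟩)
  rw [h1, Nat.cast_sum, sum_product]
  refine sum_congr rfl fun p _ => sum_congr rfl fun i _ => ?_
  have h2 : ((univ.filter fun q : X × X => κ q.1 = κ q.2 ∧ m q.1 = m q.2).filter
      fun q => (κ q.1, m q.1) = (p, i)) =
      (univ.filter (fun x => κ x = p ∧ m x = i)) ×ˢ (univ.filter (fun x => κ x = p ∧ m x = i)) := by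
    ext q
    simp only [mem_filter, mem_univ, true_and, mem_product, Prod.mk.injEq]
    constructor
    · rintro ⟨⟨h3, h4⟩, h5, h6⟩
      exact ⟨⟨h5, h6⟩, h3 ▸ h5, h4 ▸ h6⟩
    · rintro ⟨⟨h3, h4⟩, h5, h6⟩
      exact ⟨⟨h3.trans h5.symm, h4.trans h6.symm⟩, h3, h4⟩
  rw [h2, card_product]
  push_cast
  ring

open Classical in
theorem groupT {X K : Type} [Fintype X] (κ : X → K) (m : X → ℕ) (v : X → ℂ) (hv : ∀ x, ‖v x‖ ≤ 1) (U : ℕ)
    (hm : ∀ x, m x < U) (I : Finset ℕ) (α : ℕ → K → ℝ) (y : ℕ → ℝ) (B : ℝ) (hB0 : 0 ≤ B)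
    (hB : ∀ n ∈ I, ∑ n' ∈ I, ‖∑ i ∈ range U, e ((i : ℝ) * (y n - y n'))‖ ≤ B) :
    ∑ n ∈ I, ‖∑ x, v x * (e (α n (κ x)) * e ((m x : ℝ) * y n))‖ ^ 2 ≤
      B * ((univ.image κ).card : ℝ) * ((univ.filter fun p : X × X => κ p.1 = κ p.2 ∧ m p.1 = m p.2).card : ℝ) := by
  obtain ⟨a, ha⟩ : ∃ a : K → ℕ → ℂ, a = fun p i => ∑ x ∈ univ.filter (fun x => κ x = p ∧ m x = i), v x :=
    ⟨_, rfl⟩
  have hsplit : ∀ n, ∑ x, v x * (e (α n (κ x)) * e ((m x : ℝ) * y n)) =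
      ∑ p ∈ univ.image κ, e (α n p) * ∑ i ∈ range U, a p i * e ((i : ℝ) * y n) := by
    intro n
    rw [ha]
    exact x2_split κ m v U hm (α n) (y n)
  have hnorm : ∀ p i, ‖a p i‖ ≤ ((univ.filter (fun x => κ x = p ∧ m x = i)).card : ℝ) := by
    intro p i
    rw [ha]
    refine (norm_sum_le _ _).trans ?_
    refine (sum_le_sum fun x _ => hv x).trans ?_
    rw [sum_const, nsmul_eq_mul, mul_one]
  have hcs : ∀ n, ‖∑ x, v x * (e (α n (κ x)) * e ((m x : ℝ) * y n))‖ ^ 2 ≤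
      ((univ.image κ).card : ℝ) * ∑ p ∈ univ.image κ, ‖∑ i ∈ range U, a p i * e ((i : ℝ) * y n)‖ ^ 2 := by
    intro n
    rw [hsplit n]
    have h1 : ‖∑ p ∈ univ.image κ, e (α n p) * ∑ i ∈ range U, a p i * e ((i : ℝ) * y n)‖ ≤
        ∑ p ∈ univ.image κ, ‖∑ i ∈ range U, a p i * e ((i : ℝ) * y n)‖ := by
      refine (norm_sum_le _ _).trans (sum_le_sum fun p _ => ?_)
      rw [norm_mul, norm_e, one_mul]
    refine (pow_le_pow_left₀ (norm_nonneg _) h1 2).trans ?_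
    exact sq_sum_le_card_mul_sum_sq
  have hP0 : (0 : ℝ) ≤ ((univ.image κ).card : ℝ) := Nat.cast_nonneg _
  calc ∑ n ∈ I, ‖∑ x, v x * (e (α n (κ x)) * e ((m x : ℝ) * y n))‖ ^ 2
      ≤ ∑ n ∈ I, ((univ.image κ).card : ℝ) *
          ∑ p ∈ univ.image κ, ‖∑ i ∈ range U, a p i * e ((i : ℝ) * y n)‖ ^ 2 :=
        sum_le_sum fun n _ => hcs n
    _ = ((univ.image κ).card : ℝ) * ∑ p ∈ univ.image κ,
          ∑ n ∈ I, ‖∑ i ∈ range U, a p i * e ((i : ℝ) * y n)‖ ^ 2 := by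
        rw [← mul_sum, sum_comm]
    _ ≤ ((univ.image κ).card : ℝ) * ∑ p ∈ univ.image κ, B * ∑ i ∈ range U, ‖a p i‖ ^ 2 := by
        refine mul_le_mul_of_nonneg_left (sum_le_sum fun p _ => ?_) hP0
        exact schurT I y U B hB0 hB (a p)
    _ ≤ ((univ.image κ).card : ℝ) * ∑ p ∈ univ.image κ, B * ∑ i ∈ range U,
          ((univ.filter (fun x => κ x = p ∧ m x = i)).card : ℝ) ^ 2 := by
        refine mul_le_mul_of_nonneg_left (sum_le_sum fun p _ => ?_) hP0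
        refine mul_le_mul_of_nonneg_left (sum_le_sum fun i _ => ?_) hB0
        exact pow_le_pow_left₀ (norm_nonneg _) (hnorm p i) 2
    _ = B * ((univ.image κ).card : ℝ) *
          ((univ.filter fun p : X × X => κ p.1 = κ p.2 ∧ m p.1 = m p.2).card : ℝ) := by
        rw [← x2_pairs κ m U hm, ← mul_sum]
        ring

end Pool.Agent.Lib.ZB
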